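import Pool.Agent.LE.StmtsI
import Pool.Agent.Helper17_LSP.BLK
import Pool.Agent.Helper54_LIR.FTB

/-!
# BLE (squad LIR): the cluster lemma on the torus
-/

set_option autoImplicit false

open Matrix

open scoped BigOperators ComplexOrder ComplexConjugate

noncomputable section

namespace Pool.Agent.LE.IR.H32

open Pool.Agent.Anderson hiding box mem_box card_box
open Pool.Agent.Loc Pool.Agent.Mob Pool.Agent.BED
open Pool.Agent.LE.MN Pool.Agent.LE.CL Pool.Agent.LE.IR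

variable {d M : ℕ} [NeZero M]

theorem Mpos : (0 : ℝ) < (M : ℝ) ^ d := by
  have : (0 : ℝ) < M := by exact_mod_cast NeZero.pos M
  positivity

/-- the kernel matrix of a multiplier -/
def Rmt (Λ : Finset (Tor d M)) (ρ : Tor d M → ℝ) : Matrix Λ Λ ℂ :=
  fun x y => (∑ p, ec p (x : Tor d M) * (ρ p : ℂ) * conj (ec p (y : Tor d M))) / (M : ℂ) ^ d

theorem ft_vx (Λ : Finset (Tor d M)) (v : Λ → ℂ) (p : Tor d M) :
    ft (vx Λ v) p = ∑ x : Λ, conj (ec p (x : Tor d M)) * v x := by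
  classical
  unfold ft vx
  rw [← Finset.sum_subset (Finset.subset_univ Λ)]
  · rw [← Finset.sum_coe_sort]
    refine Finset.sum_congr rfl fun x _ => ?_
    rw [dif_pos x.2]
  · intro y _ hy
    rw [dif_neg hy, mul_zero]

theorem Rmt_form (Λ : Finset (Tor d M)) (ρ : Tor d M → ℝ) (v : Λ → ℂ) :
    star v ⬝ᵥ (Rmt Λ ρ *ᵥ v) = ((pm (fun p => ρ p * ‖ft (vx Λ v) p‖ ^ 2) : ℝ) : ℂ) := by
  have hM : (M : ℂ) ^ d ≠ 0 := pow_ne_zero _ (by exact_mod_cast NeZero.ne M)
  have h1 : ∀ p, ((ρ p * ‖ft (vx Λ v) p‖ ^ 2 : ℝ) : ℂ) = ∑ x : Λ, ∑ y : Λ,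
      (conj (v x) * v y) * (ec p (x : Tor d M) * (ρ p : ℂ) * conj (ec p (y : Tor d M))) := by
    intro p
    have h2 : ((‖ft (vx Λ v) p‖ ^ 2 : ℝ) : ℂ) = conj (ft (vx Λ v) p) * ft (vx Λ v) p := by
      rw [mul_comm, Complex.mul_conj, Complex.normSq_eq_norm_sq]
    rw [Complex.ofReal_mul, h2, ft_vx, map_sum, Finset.sum_mul_sum, Finset.mul_sum]
    apply Finset.sum_congr rfl
    intro x _
    rw [Finset.mul_sum]
    apply Finset.sum_congr rfl
    intro y _
    rw [map_mul, Complex.conj_conj]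
    ring
  unfold pm
  rw [Complex.ofReal_div, Complex.ofReal_sum, Complex.ofReal_pow, Complex.ofReal_natCast]
  simp only [h1]
  rw [Finset.sum_comm, Finset.sum_div]
  unfold dotProduct
  apply Finset.sum_congr rfl
  intro x _
  rw [Finset.sum_comm, Finset.sum_div]
  simp only [mulVec, dotProduct, Pi.star_apply, Finset.mul_sum]
  apply Finset.sum_congr rfl
  intro y _
  unfold Rmt
  rw [← Finset.mul_sum]
  simp only [Complex.star_def]
  ring

theorem pm_nonneg {F : Tor d M → ℝ} (h : ∀ p, 0 ≤ F p) : 0 ≤ pm F :=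
  div_nonneg (Finset.sum_nonneg fun p _ => h p) Mpos.le

theorem pm_mono {F G : Tor d M → ℝ} (h : ∀ p, F p ≤ G p) : pm F ≤ pm G :=
  div_le_div_of_nonneg_right (Finset.sum_le_sum fun p _ => h p) Mpos.le

theorem pm_mul (c : ℝ) (F : Tor d M → ℝ) : pm (fun p => c * F p) = c * pm F := by
  unfold pm
  rw [← Finset.mul_sum, mul_div_assoc]

theorem pm_sum {ι : Type} (s : Finset ι) (F : ι → Tor d M → ℝ) :
    pm (fun p => ∑ i ∈ s, F i p) = ∑ i ∈ s, pm (F i) := by
  unfold pm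
  rw [Finset.sum_comm, Finset.sum_div]

theorem Rmt_posSemidef (Λ : Finset (Tor d M)) {ρ : Tor d M → ℝ} (hρ0 : ∀ p, 0 ≤ ρ p) :
    (Rmt Λ ρ).PosSemidef := by
  rw [posSemidef_iff_dotProduct_mulVec]
  constructor
  · ext x y
    rw [conjTranspose_apply]
    unfold Rmt
    rw [Complex.star_def, map_div₀, map_sum, map_pow, Complex.conj_natCast]
    congr 1
    refine Finset.sum_congr rfl fun p _ => ?_
    rw [map_mul, map_mul, Complex.conj_conj, Complex.conj_ofReal]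
    ring
  · intro v
    rw [Rmt_form, Complex.zero_le_real]
    apply pm_nonneg
    intro p
    have := hρ0 p
    positivity

theorem Rmt_trace (Λ : Finset (Tor d M)) (ρ : Tor d M → ℝ) :
    (Matrix.trace (Rmt Λ ρ)).re = Λ.card * pm ρ := by
  have h1 : ∀ y : Λ, Rmt Λ ρ y y = ((pm ρ : ℝ) : ℂ) := by
    intro y
    unfold Rmt pm
    rw [Complex.ofReal_div, Complex.ofReal_sum, Complex.ofReal_pow, Complex.ofReal_natCast]
    congr 1
    refine Finset.sum_congr rfl fun p _ => ?_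
    have h : ec p (y : Tor d M) * conj (ec p (y : Tor d M)) = 1 := by
      rw [Complex.mul_conj, Complex.normSq_eq_norm_sq, H54.ec_norm]
      norm_num
    linear_combination (ρ p : ℂ) * h
  unfold Matrix.trace
  simp only [Matrix.diag_apply, h1, Finset.sum_const, Finset.card_univ, Fintype.card_coe,
    nsmul_eq_mul]
  rw [← Complex.ofReal_natCast, ← Complex.ofReal_mul, Complex.ofReal_re]

/-- Parseval for functions on a finite set -/
theorem pars (Λ : Finset (Tor d M)) (v : Λ → ℂ) :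
    pm (fun p => ‖ft (vx Λ v) p‖ ^ 2) = nsq v := by
  classical
  rw [← H54.parseval1]
  unfold nsq vx
  rw [← Finset.sum_subset (Finset.subset_univ Λ)]
  · rw [← Finset.sum_coe_sort]
    refine Finset.sum_congr rfl fun x _ => ?_
    rw [dif_pos x.2]
  · intro y _ hy
    rw [dif_neg hy, norm_zero]
    norm_num

/-- the main term -/
theorem main_term {C : Finset (Tor d M)} {Q : Matrix C C ℂ} (hQ : Q.IsHermitian)
    (hQQ : Q * Q = Q) {q : Tor d M → ℝ} {b : ℝ} (hb : ∀ p, |q p| ≤ b) :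
    |(C.card : ℝ) * pm q - ∑ k, pm (fun p => q p * ‖ft (vx C (fun x => Q x k)) p‖ ^ 2)| ≤
      b * (Matrix.trace (1 - Q)).re := by
  have hQH : Qᴴ = Q := hQ
  have hH : (1 - Q).IsHermitian := by
    rw [Matrix.IsHermitian, conjTranspose_sub, conjTranspose_one, hQH]
  have hqq : (1 - Q) * (1 - Q) = 1 - Q := by
    rw [mul_sub, mul_one, sub_mul, one_mul, hQQ]
    simp
  have hpt : ∀ p : Tor d M, ∑ k, ‖ft (vx C (fun x => Q x k)) p‖ ^ 2 +
      ∑ k, ‖ft (vx C (fun x => (1 - Q) x k)) p‖ ^ 2 = C.card := by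
    intro p
    have h1 := CL.H17.vecMul_proj hQ (fun x : C => conj (ec p (x : Tor d M)))
    have h2 := CL.H17.vecMul_proj hH (fun x : C => conj (ec p (x : Tor d M)))
    have h3 := CL.H17.proj_pyth hQ hQQ (star (fun x : C => conj (ec p (x : Tor d M))))
    rw [← h1, ← h2, CL.H17.nsq_star] at h3
    have h4 : nsq (fun x : C => conj (ec p (x : Tor d M))) = C.card := by
      unfold nsq
      simp only [RCLike.norm_conj, H54.ec_norm, one_pow, Finset.sum_const, Finset.card_univ,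
        Fintype.card_coe, nsmul_eq_mul, mul_one]
    rw [h4] at h3
    simp only [ft_vx]
    exact h3
  have e1 : (C.card : ℝ) * pm q - ∑ k, pm (fun p => q p * ‖ft (vx C (fun x => Q x k)) p‖ ^ 2) =
      pm (fun p => q p * ∑ k, ‖ft (vx C (fun x => (1 - Q) x k)) p‖ ^ 2) := by
    rw [← pm_sum, ← pm_mul]
    unfold pm
    rw [← sub_div, ← Finset.sum_sub_distrib]
    congr 1
    refine Finset.sum_congr rfl fun p _ => ?_
    rw [← Finset.mul_sum, ← hpt p]
    ring
  have hb0 : 0 ≤ b := (abs_nonneg _).trans (hb 0)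
  rw [e1]
  have hs0 : ∀ p : Tor d M, 0 ≤ ∑ k, ‖ft (vx C (fun x => (1 - Q) x k)) p‖ ^ 2 :=
    fun p => Finset.sum_nonneg fun k _ => sq_nonneg _
  have s1 : |pm (fun p => q p * ∑ k, ‖ft (vx C (fun x => (1 - Q) x k)) p‖ ^ 2)| ≤
      pm (fun p => b * ∑ k, ‖ft (vx C (fun x => (1 - Q) x k)) p‖ ^ 2) := by
    unfold pm
    rw [abs_div, abs_of_pos (Mpos (d := d) (M := M))]
    refine div_le_div_of_nonneg_right ?_ Mpos.le
    refine (Finset.abs_sum_le_sum_abs _ _).trans (Finset.sum_le_sum fun p _ => ?_)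
    rw [abs_mul, abs_of_nonneg (hs0 p)]
    exact mul_le_mul_of_nonneg_right (hb p) (hs0 p)
  have s2 : pm (fun p => ∑ k, ‖ft (vx C (fun x => (1 - Q) x k)) p‖ ^ 2) =
      ∑ k, nsq (fun x => (1 - Q) x k) := by
    rw [pm_sum]
    exact Finset.sum_congr rfl fun k _ => pars C _
  rw [pm_mul, s2, CL.H17.proj_hs hH hqq] at s1
  exact s1

/-- larger constants -/
theorem numT_mono {A c c' w l η τ φ e0 κ Γ β D₀ b₀ : ℝ} (hcc : c ≤ c')
    (h : NumT d M A c w l η τ φ e0 κ Γ β D₀ b₀) : NumT d M A c' w l η τ φ e0 κ Γ β D₀ b₀ := by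
  have hη := h.hη.1
  have hκ : 0 < κ := by
    have h1 := h.hl.1
    have h2 := h.hl.2.1
    linarith
  have hD := h.hD.1
  refine ⟨h.hw, ⟨hη, h.hη.2.1.trans ?_, h.hη.2.2⟩, h.hl, h.hD, h.hκ, h.hΓ,
    ⟨h.hφ.1, h.hφ.2.trans ?_⟩, ⟨h.he.1, h.he.2.trans ?_⟩, ⟨h.hτ.1, h.hτ.2.trans ?_⟩,
    ⟨h.hβ.1, h.hβ.2.trans hcc⟩, h.h2, h.h1⟩
  · exact mul_le_mul_of_nonneg_right hcc hκ.le
  · exact mul_le_mul_of_nonneg_right hcc hη.le
  · exact mul_le_mul_of_nonneg_right (mul_le_mul_of_nonneg_right hcc hη.le) hD.le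
  · exact mul_le_mul_of_nonneg_right hcc hD.le

theorem alg1 {η : ℝ} (hη : η ≠ 0) (A D₀ : ℝ) : η ^ 2 * (A * D₀ / η) = A * η * D₀ := by
  field_simp

theorem alg2 {η A : ℝ} (hη : η ≠ 0) (hA : A ≠ 0) (D₀ N : ℝ) :
    A * (A * (1 / (8 * A ^ 4) / η)) * (4 * A * η * D₀ * N) = D₀ / (2 * A) * N := by
  field_simp
  ring

theorem alg3 {A : ℝ} (hA : A ≠ 0) (D₀ N : ℝ) :
    D₀ / A * N = D₀ / (2 * A) * N + D₀ / (2 * A) * N := by
  field_simp
  ring

theorem ble (laq : LaqStmt) (hse : HseStmt) (pae : PaeStmt) : BleStmt := by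
  intro d A hd hA
  have hA0 : 0 < A := by linarith
  obtain ⟨cH, C₂, hcH, hC₂, hH⟩ := hse d A hd hA
  set c₁ : ℝ := 1 / (8 * A ^ 4) with hc₁
  have hc₁0 : 0 < c₁ := by positivity
  have hc₁A : c₁ ≤ 1 / A := by
    rw [hc₁]
    apply one_div_le_one_div_of_le hA0
    have : A ≤ A ^ 4 := le_self_pow₀ hA (by norm_num)
    nlinarith [pow_pos hA0 4]
  obtain ⟨cP, c₂, hcP, hc₂, hP⟩ := pae d A C₂ c₁ hd hA hC₂ hc₁0 hc₁A
  set c : ℝ := min (min cH cP) 1 with hc
  have hc0 : 0 < c := lt_min (lt_min hcH hcP) one_pos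
  have hccH : c ≤ cH := (min_le_left _ _).trans (min_le_left _ _)
  have hccP : c ≤ cP := (min_le_left _ _).trans (min_le_right _ _)
  refine ⟨c₁, c, c₂, hc₁0, hc₁A, hc0, min_le_right _ _, hc₂, ?_⟩
  intro M Rb _ ω h lam w l η τ φ e0 κ Γ β D₀ b₀ T Kq C C' g s S F e q hN hs hT1 hT2 hT hKq hq hR
  classical
  have hη := hN.hη.1
  have hD := hN.hD.1
  have hT0 : 0 < T := by linarith
  set ρ : Tor d M → ℝ := fun p => if ds p ≤ κ then η ^ 2 / mt l η p ^ 2 else 0 with hρ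
  have hρ0 : ∀ p, 0 ≤ ρ p := by
    intro p
    rw [hρ]
    dsimp only
    split_ifs
    · positivity
    · exact le_refl _
  obtain ⟨Q, hQ, hQQ, htr, hform⟩ := laq C C' (Rmt C' ρ) (fun y x => g x y)
    (Rmt_posSemidef C' hρ0)
  set v : C → C → ℂ := fun k x => Q x k with hv
  have hNc : (0 : ℝ) ≤ C.card := Nat.cast_nonneg _
  -- Bessel
  have hBes : BesT C v := by
    intro u
    have h1 := CL.H17.vecMul_proj hQ u
    have h2 := CL.H17.proj_pyth hQ hQQ (star u)
    rw [CL.H17.nsq_star] at h2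
    have h3 : 0 ≤ nsq ((1 - Q) *ᵥ star u) := Finset.sum_nonneg fun _ _ => sq_nonneg _
    show ∑ k, ‖∑ x, u x * Q x k‖ ^ 2 ≤ ∑ x, ‖u x‖ ^ 2
    rw [h1]
    unfold nsq at h2 h3 ⊢
    linarith
  -- the functions are supported in `C'`
  have hsup : ∀ k, lnt C g (v k) = vx C' (fun y : C' => lnt C g (v k) y) := by
    intro k
    funext y
    unfold vx
    by_cases hy : y ∈ C'
    · rw [dif_pos hy]
    · rw [dif_neg hy]
      unfold lnt
      rw [Finset.sum_eq_zero]
      intro x _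
      rw [hs.hg x x.2 y hy, mul_zero]
  -- the form
  have hF : ∀ k, pm (fun p => if ds p ≤ κ then
      η ^ 2 / mt l η p ^ 2 * ‖ft (lnt C g (v k)) p‖ ^ 2 else 0) ≤
      1 / 2 * ∑ y, ‖lnt C g (v k) y‖ ^ 2 := by
    intro k
    have h1 := hform (Pi.single k 1)
    have h2 : ((fun (y : C') (x : C) => g x y : Matrix C' C ℂ) *ᵥ
        (Q *ᵥ (Pi.single k 1 : C → ℂ))) = fun y : C' => lnt C g (v k) y := by
      funext y
      rw [mulVec_single_one]
      simp only [mulVec, dotProduct]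
      unfold lnt
      exact Finset.sum_congr rfl fun x _ => mul_comm _ _
    rw [h2, Rmt_form, Complex.ofReal_re, ← hsup k, ← pars C', ← hsup k, ← H54.parseval1] at h1
    refine le_trans (le_of_eq ?_) h1
    congr 1
    funext p
    rw [hρ]
    dsimp only
    split_ifs
    · rfl
    · rw [zero_mul]
  have hHS := hH M ω h lam w l η τ φ e0 κ Γ β D₀ b₀ C C' g s S F e v
    (numT_mono hccH hN) hs hBes hF
  refine hP M Rb ω h lam w l η τ φ e0 κ Γ β D₀ b₀ T Kq C C' g s S F e q v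
    (numT_mono hccP hN) hs hBes hT1 hT2 hT hKq hq hR hHS.1 hHS.2 ?_
  -- the main term
  have hmain := main_term hQ hQQ hq.hsup
  have htr2 : (Matrix.trace (1 - Q)).re ≤ 4 * A * η * D₀ * C.card := by
    refine htr.trans ?_
    rw [Rmt_trace]
    have hI : pm ρ ≤ A * η * D₀ := by
      have e1 : pm ρ = η ^ 2 * pm (fun p : Tor d M => if ds p ≤ κ then (mt l η p ^ 2)⁻¹ else 0) := by
        rw [← pm_mul]
        congr 1
        funext p
        rw [hρ]
        dsimp only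
        split_ifs
        · rw [div_eq_mul_inv]
        · rw [mul_zero]
      rw [e1]
      calc η ^ 2 * pm (fun p : Tor d M => if ds p ≤ κ then (mt l η p ^ 2)⁻¹ else 0) ≤
          η ^ 2 * (A * D₀ / η) := mul_le_mul_of_nonneg_left hN.h2 (sq_nonneg _)
        _ = A * η * D₀ := alg1 hη.ne' A D₀
    have hcc : (C'.card : ℝ) ≤ 2 * C.card := by exact_mod_cast hs.hC.2.2
    have hp : 0 ≤ A * η * D₀ := by positivity
    calc 2 * (C'.card * pm ρ) ≤ 2 * (C'.card * (A * η * D₀)) := by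
          have := mul_le_mul_of_nonneg_left hI (Nat.cast_nonneg (α := ℝ) C'.card)
          linarith
      _ ≤ 2 * ((2 * C.card) * (A * η * D₀)) := by
          have := mul_le_mul_of_nonneg_right hcc hp
          linarith
      _ = 4 * A * η * D₀ * C.card := by ring
  have hpos : 0 ≤ 4 * A * η * D₀ * (C.card : ℝ) :=
    mul_nonneg (mul_nonneg (mul_nonneg (mul_nonneg (by norm_num) hA0.le) hη.le) hD.le) hNc
  have herr : A * T * (Matrix.trace (1 - Q)).re ≤ D₀ / (2 * A) * C.card := by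
    calc A * T * (Matrix.trace (1 - Q)).re ≤ A * T * (4 * A * η * D₀ * C.card) :=
          mul_le_mul_of_nonneg_left htr2 (by positivity)
      _ ≤ A * (A * (c₁ / η)) * (4 * A * η * D₀ * C.card) :=
          mul_le_mul_of_nonneg_right (mul_le_mul_of_nonneg_left hT2 hA0.le) hpos
      _ = D₀ / (2 * A) * C.card := by
          rw [hc₁]
          exact alg2 hη.ne' hA0.ne' D₀ _
  have hfin : D₀ / A * C.card ≤ |(C.card : ℝ) * pm q| := by
    rw [abs_mul, abs_of_nonneg hNc, mul_comm]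
    exact mul_le_mul_of_nonneg_left hq.hmain hNc
  have htri := abs_sub_abs_le_abs_sub ((C.card : ℝ) * pm q)
    (∑ k, pm (fun p => q p * ‖ft (vx C (fun x => Q x k)) p‖ ^ 2))
  have hhalf : D₀ / A * C.card = D₀ / (2 * A) * C.card + D₀ / (2 * A) * C.card :=
    alg3 hA0.ne' D₀ _
  show D₀ / (2 * A) * C.card ≤ |∑ k, pm (fun p => q p * ‖ft (vx C (fun x => Q x k)) p‖ ^ 2)|
  linarith

end Pool.Agent.LE.IR.H32
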