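import Pool.Agent.Helper32_LIR.TseC

/-!
# Squad LIR, row TSE: the test multiplier on the torus
-/

set_option autoImplicit false
set_option linter.unusedSectionVars false

open MeasureTheory ProbabilityTheory Function Filter

open scoped ENNReal BigOperators Topology NNReal ComplexOrder

noncomputable section

namespace Pool.Agent.LE.IR.H32

open Pool.Agent.Anderson hiding box mem_box card_box
open Pool.Agent.Loc Pool.Agent.Mob Pool.Agent.Helper54.Bal
  Pool.Agent.Helper96.EXP Pool.Agent.BED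
open Pool.Agent.LE.MN Pool.Agent.LE.CL Pool.Agent.LE.CL.H76

theorem K1_le {D r T c₁ : ℝ} (hD : 0 ≤ D) (hT : 1 ≤ T) (hc : 0 < c₁) (hc1 : c₁ ≤ 1)
    (hr0 : 0 < r) (hr : c₁ / T ≤ r) :
    1 * (6 * T ^ 2 * (2 * D)) + 2 * D / r * (3 * T) ≤ 18 * D * T ^ 2 / c₁ := by
  have hT0 : 0 < T := by linarith
  have h1 : 2 * D / r ≤ 2 * D * (T / c₁) := by
    rw [div_eq_mul_inv]
    apply mul_le_mul_of_nonneg_left _ (by positivity)
    rw [inv_le_comm₀ hr0 (by positivity), inv_div]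
    exact hr
  have h2 : 12 * D * T ^ 2 ≤ 12 * D * T ^ 2 / c₁ := by
    rw [le_div_iff₀ hc]
    have : 0 ≤ 12 * D * T ^ 2 := by positivity
    nlinarith
  calc 1 * (6 * T ^ 2 * (2 * D)) + 2 * D / r * (3 * T) ≤
      12 * D * T ^ 2 / c₁ + 2 * D * (T / c₁) * (3 * T) := by
        apply add_le_add
        · linarith
        · exact mul_le_mul_of_nonneg_right h1 (by positivity)
    _ = 18 * D * T ^ 2 / c₁ := by
        field_simp
        ring

theorem K2_le {D T c₁ R K : ℝ} (hD : 1 ≤ D) (hT : 1 ≤ T) (hc : 0 < c₁) (hc1 : c₁ ≤ 1)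
    (hR : 0 ≤ R) (hK : K ≤ 18 * D * T ^ 2 / c₁) :
    3 * T * (4 * D) * (D * R) + (3 * T * (2 * D) + K * (4 * D)) * 1 ≤
      90 * D ^ 2 * T ^ 2 * (R + 1) / c₁ := by
  have hT0 : 0 < T := by linarith
  have hD0 : 0 < D := by linarith
  have hTT : T ≤ T ^ 2 := by nlinarith
  have hDD : D ≤ D ^ 2 := by nlinarith
  have h1 : K * (4 * D) ≤ 18 * D * T ^ 2 / c₁ * (4 * D) :=
    mul_le_mul_of_nonneg_right hK (by positivity)
  have h2 : 12 * D ^ 2 * T * R + 6 * D * T ≤ (12 * D ^ 2 * T ^ 2 * R + 6 * D ^ 2 * T ^ 2) / c₁ := by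
    rw [le_div_iff₀ hc]
    have h3 : 12 * D ^ 2 * T * R ≤ 12 * D ^ 2 * T ^ 2 * R := by
      apply mul_le_mul_of_nonneg_right _ hR
      exact mul_le_mul_of_nonneg_left hTT (by positivity)
    have h4 : 6 * D * T ≤ 6 * D ^ 2 * T ^ 2 := by
      have : D * T ≤ D ^ 2 * T ^ 2 := mul_le_mul hDD hTT hT0.le (by positivity)
      nlinarith
    have h5 : 0 ≤ 12 * D ^ 2 * T * R + 6 * D * T := by positivity
    calc (12 * D ^ 2 * T * R + 6 * D * T) * c₁ ≤ (12 * D ^ 2 * T * R + 6 * D * T) * 1 :=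
          mul_le_mul_of_nonneg_left hc1 h5
      _ ≤ _ := by linarith
  have h6 : (12 * D ^ 2 * T ^ 2 * R + 6 * D ^ 2 * T ^ 2) / c₁ + 18 * D * T ^ 2 / c₁ * (4 * D) ≤
      90 * D ^ 2 * T ^ 2 * (R + 1) / c₁ := by
    have e1 : (12 * D ^ 2 * T ^ 2 * R + 6 * D ^ 2 * T ^ 2) / c₁ +
        18 * D * T ^ 2 / c₁ * (4 * D) =
        (12 * D ^ 2 * T ^ 2 * R + 78 * (D ^ 2 * T ^ 2)) / c₁ := by
      field_simp
      ring
    rw [e1]
    apply div_le_div_of_nonneg_right _ hc.le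
    have h7 : 0 ≤ D ^ 2 * T ^ 2 := by positivity
    have h8 : 0 ≤ D ^ 2 * T ^ 2 * R := by positivity
    nlinarith
  linarith

section pmL
variable {d M : ℕ} [NeZero M]

theorem pm_mono {F G : Tor d M → ℝ} (h : ∀ p, F p ≤ G p) : pm F ≤ pm G := by
  unfold pm
  exact div_le_div_of_nonneg_right (Finset.sum_le_sum fun p _ => h p) (by positivity)

theorem pm_mul (c : ℝ) (F : Tor d M → ℝ) : pm (fun p => c * F p) = c * pm F := by
  unfold pm
  rw [← Finset.mul_sum, mul_div_assoc]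

theorem pm_supp {F G : Tor d M → ℝ} {c κ : ℝ} (hc : ∀ p, ds p ≤ κ → F p ≤ c * G p)
    (h0 : ∀ p, ¬ ds p ≤ κ → F p ≤ 0) : pm F ≤ c * pm (fun p => if ds p ≤ κ then G p else 0) := by
  rw [← pm_mul]
  apply pm_mono
  intro p
  by_cases h : ds p ≤ κ
  · rw [if_pos h]
    exact hc p h
  · rw [if_neg h, mul_zero]
    exact h0 p h

theorem pm_ofReal (F : Tor d M → ℝ) : ((pm F : ℝ) : ℂ) = (∑ p, (F p : ℂ)) / (M : ℂ) ^ d := by
  unfold pm
  push_cast
  rfl

end pmL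

theorem rpow4 {d : ℕ} (hd : 3 ≤ d) {l : ℝ} (hl : 0 < l) :
    (4 * l) ^ (((d : ℝ) - 2) / 2) ≤ 4 ^ d * l ^ (((d : ℝ) - 2) / 2) := by
  have hd' : (3 : ℝ) ≤ d := by exact_mod_cast hd
  rw [Real.mul_rpow (by norm_num) hl.le]
  apply mul_le_mul_of_nonneg_right _ (Real.rpow_nonneg hl.le _)
  rw [← Real.rpow_natCast]
  apply Real.rpow_le_rpow_of_exponent_le (by norm_num)
  linarith

theorem D0_ge {d : ℕ} (hd : 3 ≤ d) {l T : ℝ} (hl : 0 < l) (hl1 : l ≤ 1) (hT : 0 < T)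
    (h : 1 ≤ T * l) : (T ^ d)⁻¹ ≤ l ^ (((d : ℝ) - 2) / 2) := by
  have hd' : (3 : ℝ) ≤ d := by exact_mod_cast hd
  have h1 : l ^ (d : ℝ) ≤ l ^ (((d : ℝ) - 2) / 2) :=
    Real.rpow_le_rpow_of_exponent_ge hl hl1 (by linarith)
  rw [Real.rpow_natCast] at h1
  refine le_trans ?_ h1
  rw [← inv_pow]
  apply pow_le_pow_left₀ (by positivity)
  rw [← one_div, div_le_iff₀ hT, mul_comm]
  exact h

theorem sqrt_pow {d : ℕ} (hd : 1 ≤ d) {T : ℝ} (hT : 0 < T) :
    T * Real.sqrt T ^ (d - 1) = Real.sqrt T ^ (d + 1) := by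
  have h1 : d + 1 = (d - 1) + 2 := by omega
  rw [h1, pow_add, Real.sq_sqrt hT.le, mul_comm]

theorem err_kernel {d : ℕ} {T l c₁ R M : ℝ} (hT : 1 ≤ T) (hl : 0 < l) (hl1 : l ≤ 1)
    (hc : 0 < c₁) (hM : 0 < M)
    (hB : 180 * Real.pi * d ^ 2 / c₁ * (T ^ (d + 3) * (R + 1)) ≤ M) :
    90 * (d : ℝ) ^ 2 * T ^ 2 * (R + 1) / c₁ * (2 * Real.pi / M) ≤
      1 / (Real.sqrt T ^ (d + 1) * Real.sqrt l) := by
  have hT0 : 0 < T := by linarith
  have hpi := Real.pi_pos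
  have hs1 : Real.sqrt T ≤ T := by
    rw [Real.sqrt_le_left hT0.le]
    nlinarith
  have hs0 : 0 < Real.sqrt T := Real.sqrt_pos.2 hT0
  have hsl : Real.sqrt l ≤ 1 := by
    rw [Real.sqrt_le_one]
    exact hl1
  have hsl0 : 0 < Real.sqrt l := Real.sqrt_pos.2 hl
  have h1 : 1 / T ^ (d + 1) ≤ 1 / (Real.sqrt T ^ (d + 1) * Real.sqrt l) := by
    apply one_div_le_one_div_of_le (by positivity)
    calc Real.sqrt T ^ (d + 1) * Real.sqrt l ≤ T ^ (d + 1) * 1 :=
          mul_le_mul (pow_le_pow_left₀ hs0.le hs1 _) hsl hsl0.le (by positivity)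
      _ = T ^ (d + 1) := mul_one _
  refine le_trans ?_ h1
  rw [le_div_iff₀ (by positivity)]
  have h2 : 90 * (d : ℝ) ^ 2 * T ^ 2 * (R + 1) / c₁ * (2 * Real.pi / M) * T ^ (d + 1) =
      180 * Real.pi * d ^ 2 / c₁ * (T ^ (d + 3) * (R + 1)) / M := by
    rw [show d + 3 = 2 + (d + 1) by ring, pow_add T 2 (d + 1)]
    field_simp
    ring
  rw [h2, div_le_one hM]
  exact hB

theorem err_main {d : ℕ} {T c₁ c M D₀ : ℝ} (hT : 1 ≤ T)
    (hc₁ : 0 < c₁) (hc : 0 < c) (hM : 0 < M) (hD : (T ^ d)⁻¹ ≤ D₀)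
    (hB : 72 * Real.pi * d * (2 * Real.pi) ^ d / (c₁ * c) * T ^ (d + 3) ≤ M) :
    18 * (d : ℝ) * T ^ 2 / c₁ * (2 * Real.pi / M) ≤ ((2 * Real.pi) ^ d)⁻¹ * (c * D₀) / 2 := by
  have hT0 : 0 < T := by linarith
  have hpi := Real.pi_pos
  have h1 : ((2 * Real.pi) ^ d)⁻¹ * (c * (T ^ d)⁻¹) / 2 ≤
      ((2 * Real.pi) ^ d)⁻¹ * (c * D₀) / 2 := by
    apply div_le_div_of_nonneg_right _ (by norm_num)
    apply mul_le_mul_of_nonneg_left _ (by positivity)
    exact mul_le_mul_of_nonneg_left hD hc.le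
  refine le_trans ?_ h1
  have h2 : T ^ (d + 2) ≤ T ^ (d + 3) := pow_le_pow_right₀ hT (by omega)
  have h3 : 72 * Real.pi * d * (2 * Real.pi) ^ d / (c₁ * c) * T ^ (d + 2) ≤ M :=
    (mul_le_mul_of_nonneg_left h2 (by positivity)).trans hB
  obtain ⟨W, hW⟩ : ∃ W, W = (2 * Real.pi) ^ d := ⟨_, rfl⟩
  obtain ⟨P, hP⟩ : ∃ P, P = T ^ d := ⟨_, rfl⟩
  have hW0 : 0 < W := by
    rw [hW]
    positivity
  have hP0 : 0 < P := by
    rw [hP]
    positivity
  rw [pow_add, ← hW, ← hP] at h3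
  rw [← hW, ← hP]
  have h4 : 18 * (d : ℝ) * T ^ 2 / c₁ * (2 * Real.pi / M) =
      72 * Real.pi * d * W / (c₁ * c) * (P * T ^ 2) * (c / (2 * W * P * M)) := by
    field_simp
    ring
  have h5 : W⁻¹ * (c * P⁻¹) / 2 = M * (c / (2 * W * P * M)) := by
    field_simp
  rw [h4, h5]
  exact mul_le_mul_of_nonneg_right h3 (by positivity)

/-- TSE -/
theorem tse (kbe : KbeStmt) (dst : DstStmt) (sms : SmsStmt) : TseStmt := by
  intro d hd
  obtain ⟨c₁, c, C, hc₁, hc₁1, hc, hC, hkbe⟩ := kbe d hd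
  obtain ⟨CD, hCD, hdst⟩ := dst d hd
  obtain ⟨CS, hCS, hsms⟩ := sms d hd
  have hpi := Real.pi_pos
  have hpi3 := Real.pi_gt_three
  have hd' : (3 : ℝ) ≤ d := by exact_mod_cast hd
  obtain ⟨W, hW⟩ : ∃ W, W = (2 * Real.pi) ^ d := ⟨_, rfl⟩
  have hW0 : 0 < W := by
    rw [hW]
    positivity
  obtain ⟨A, hA⟩ : ∃ A, A = C + 3 + 32 * (CD * 4 ^ d) + 8 * (CS * 4 ^ d) + 2 * W / c +
      (2 * C + 1) := ⟨_, rfl⟩
  obtain ⟨B, hB⟩ : ∃ B, B = CD + CS + 72 * Real.pi * d * (2 * Real.pi) ^ d / (c₁ * c) +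
      180 * Real.pi * d ^ 2 / c₁ := ⟨_, rfl⟩
  have hd0 : (0 : ℝ) < d := by linarith only [hd']
  have hCD0 : 0 < CD := by linarith only [hCD]
  have hCS0 : 0 < CS := by linarith only [hCS]
  have hC0 : 0 < C := by linarith only [hC]
  have hb1 : 0 ≤ 72 * Real.pi * d * (2 * Real.pi) ^ d / (c₁ * c) := by positivity
  have hb2 : 0 ≤ 180 * Real.pi * d ^ 2 / c₁ := by positivity
  have hB0 : 0 ≤ B := by
    rw [hB]
    linarith only [hb1, hb2, hCD, hCS]
  have h4d : (0 : ℝ) < 4 ^ d := by positivity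
  have hCD4 : 0 ≤ CD * 4 ^ d := mul_nonneg hCD0.le h4d.le
  have hCS4 : 0 ≤ CS * 4 ^ d := mul_nonneg hCS0.le h4d.le
  have hWc : 0 < 2 * W / c := div_pos (mul_pos (by norm_num) hW0) hc
  have hA1 : 1 ≤ A := by
    rw [hA]
    linarith only [hCD4, hCS4, hWc, hC0]
  have hA0 : 0 < A := by linarith only [hA1]
  refine ⟨A, min c₁ (1 / 16), C + B * C ^ (d + 3), d + 3, hA1, lt_min hc₁ (by norm_num), ?_, ?_⟩
  · have : 0 ≤ B * C ^ (d + 3) := mul_nonneg hB0 (pow_nonneg hC0.le _)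
    linarith only [this, hC]
  intro M Rb _ l T hl hlc hTl hMT
  have hl1 : l ≤ c₁ := hlc.trans (min_le_left _ _)
  have hl2 : l ≤ 1 / 16 := hlc.trans (min_le_right _ _)
  have hBC : 0 ≤ B * C ^ (d + 3) := mul_nonneg hB0 (pow_nonneg hC0.le _)
  have hCTl : C ≤ T * l := by linarith only [hTl, hBC]
  have hT0 : 0 < T := by
    by_contra hcon
    push Not at hcon
    have : T * l ≤ 0 := mul_nonpos_of_nonpos_of_nonneg hcon hl.le
    linarith only [this, hCTl, hC]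
  obtain ⟨th0, r, hr1, hr2, hr3, hker, hmt⟩ := hkbe l hl hl1
  obtain ⟨T', hTT', hT'C, hmain⟩ := hmt T hCTl
  have hT'0 : 0 < T' := by linarith only [hTT', hT0]
  have hCT'l : C ≤ T' * l := hCTl.trans (mul_le_mul_of_nonneg_right hTT' hl.le)
  have hT'l : 1 ≤ T' * l := hC.trans hCT'l
  have hT'1 : 1 ≤ T' := by
    by_contra hcon
    push Not at hcon
    have : T' * l ≤ 1 * (1 / 16) := mul_le_mul hcon.le hl2 hl.le (by norm_num)
    linarith only [this, hT'l]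
  have hsl : 0 < Real.sqrt l := Real.sqrt_pos.2 hl
  have hr0 : 0 < r := lt_of_lt_of_le (mul_pos hc₁ hsl) hr1
  have hM := hMpos (M := M)
  have hRb : (0 : ℝ) ≤ Rb := Nat.cast_nonneg _
  have hRb1 : (1 : ℝ) ≤ (Rb : ℝ) + 1 := by linarith only [hRb]
  -- the size of `M`
  have hMB : B * (T' ^ (d + 3) * ((Rb : ℝ) + 1)) ≤ M := by
    refine le_trans ?_ hMT
    have h1 : T' ^ (d + 3) ≤ C ^ (d + 3) * T ^ (d + 3) := by
      rw [← mul_pow]
      exact pow_le_pow_left₀ hT'0.le hT'C _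
    have h2 : (Rb : ℝ) + 1 ≤ ((Rb : ℝ) + 1) ^ (d + 3) := le_self_pow₀ hRb1 (by omega)
    have h3 : T' ^ (d + 3) * ((Rb : ℝ) + 1) ≤
        C ^ (d + 3) * T ^ (d + 3) * ((Rb : ℝ) + 1) ^ (d + 3) :=
      mul_le_mul h1 h2 (by linarith only [hRb]) (mul_nonneg (pow_nonneg hC0.le _)
        (pow_nonneg hT0.le _))
    calc B * (T' ^ (d + 3) * ((Rb : ℝ) + 1)) ≤
        B * (C ^ (d + 3) * T ^ (d + 3) * ((Rb : ℝ) + 1) ^ (d + 3)) :=
          mul_le_mul_of_nonneg_left h3 hB0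
      _ = B * C ^ (d + 3) * (T * ((Rb : ℝ) + 1)) ^ (d + 3) := by
          rw [mul_pow T]
          ring
      _ ≤ (C + B * C ^ (d + 3)) * (T * ((Rb : ℝ) + 1)) ^ (d + 3) := by
          apply mul_le_mul_of_nonneg_right _
            (pow_nonneg (mul_nonneg hT0.le (by linarith only [hRb])) _)
          linarith only [hC0]
  have hTp : T' ≤ T' ^ (d + 3) := le_self_pow₀ hT'1 (by omega)
  have hTR : T' ≤ T' ^ (d + 3) * ((Rb : ℝ) + 1) := by
    calc T' ≤ T' ^ (d + 3) * 1 := by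
          rw [mul_one]
          exact hTp
      _ ≤ _ := mul_le_mul_of_nonneg_left hRb1 (pow_nonneg hT'0.le _)
  have hP0 : 0 ≤ T' ^ (d + 3) * ((Rb : ℝ) + 1) :=
    mul_nonneg (pow_nonneg hT'0.le _) (by linarith only [hRb])
  have hMD : CD / T'⁻¹ ≤ M := by
    rw [div_inv_eq_mul]
    calc CD * T' ≤ B * (T' ^ (d + 3) * ((Rb : ℝ) + 1)) := by
          apply mul_le_mul _ hTR hT'0.le hB0
          rw [hB]
          linarith only [hb1, hb2, hCD0, hCS0]
      _ ≤ M := hMB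
  have hMS : CS / T'⁻¹ ≤ M := by
    rw [div_inv_eq_mul]
    calc CS * T' ≤ B * (T' ^ (d + 3) * ((Rb : ℝ) + 1)) := by
          apply mul_le_mul _ hTR hT'0.le hB0
          rw [hB]
          linarith only [hb1, hb2, hCD0, hCS0]
      _ ≤ M := hMB
  have hM1 : 72 * Real.pi * d * (2 * Real.pi) ^ d / (c₁ * c) * T' ^ (d + 3) ≤ M := by
    refine le_trans ?_ hMB
    apply mul_le_mul _ _ (pow_nonneg hT'0.le _) hB0
    · rw [hB]
      linarith only [hb2, hCD0, hCS0]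
    · calc T' ^ (d + 3) = T' ^ (d + 3) * 1 := (mul_one _).symm
        _ ≤ _ := mul_le_mul_of_nonneg_left hRb1 (pow_nonneg hT'0.le _)
  have hM2 : 180 * Real.pi * d ^ 2 / c₁ * (T' ^ (d + 3) * ((Rb : ℝ) + 1)) ≤ M := by
    refine le_trans ?_ hMB
    apply mul_le_mul_of_nonneg_right _ hP0
    rw [hB]
    linarith only [hb1, hCD0, hCS0]
  -- the radius
  have hrT : c₁ / T' ≤ r := by
    refine le_trans ?_ hr1
    rw [div_eq_mul_inv]
    apply mul_le_mul_of_nonneg_left _ hc₁.le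
    have h1 : T'⁻¹ ≤ l := by
      rw [← one_div, div_le_iff₀ hT'0, mul_comm]
      exact hT'l
    refine h1.trans ?_
    rw [Real.le_sqrt' hl]
    have h2 : l * l ≤ l * 1 := mul_le_mul_of_nonneg_left (by linarith only [hl2]) hl.le
    linarith only [h2]
  have hth : th0 + r ≤ 1 / 2 := by
    have h0 : 0 < th0 + r := by linarith only [hr0, hr2]
    have h1 : 3 * (th0 + r) ^ 2 ≤ d * (th0 + r) ^ 2 :=
      mul_le_mul_of_nonneg_right hd' (sq_nonneg _)
    by_contra hcon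
    push Not at hcon
    have h2 := mul_lt_mul'' hcon hcon (by norm_num) (by norm_num)
    linarith only [h1, h2, hr3, hl2]
  have hth0 : 0 < th0 := by linarith only [hr0, hr2]
  -- names
  obtain ⟨E, hE⟩ : ∃ E : ℝ, E = 2 * d - l := ⟨_, rfl⟩
  have hEd : |E| ≤ 2 * d := by
    rw [hE, abs_le]
    constructor <;> linarith only [hl, hl2, hd']
  obtain ⟨q, hq⟩ : ∃ q : Tor d M → ℝ, ∀ p, q p = cn th0 r (an p) * w2 T' (ds p - l) :=
    ⟨_, fun _ => rfl⟩
  have hXE : ∀ p : Tor d M, XX E (an p) = -(ds p - l) := by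
    intro p
    rw [hE]
    exact XX_an l p
  have hqG : ∀ p, (q p : ℂ) = G1 th0 r E T' (an p) := by
    intro p
    unfold G1
    rw [hXE, w2_neg, hq, Complex.ofReal_mul]
  have hqw : ∀ p, |q p| ≤ |w2 T' (ds p - l)| := by
    intro p
    rw [hq, abs_mul, abs_of_nonneg (cn_nonneg _ _ _)]
    calc cn th0 r (an p) * |w2 T' (ds p - l)| ≤ 1 * |w2 T' (ds p - l)| :=
          mul_le_mul_of_nonneg_right (cn_le _ _ _) (abs_nonneg _)
      _ = _ := one_mul _
  have hqw2 : ∀ p, q p ^ 2 ≤ w2 T' (ds p - l) ^ 2 := by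
    intro p
    rw [← sq_abs (q p), ← sq_abs (w2 T' (ds p - l))]
    exact pow_le_pow_left₀ (abs_nonneg _) (hqw p) 2
  have hsupp : ∀ p, q p ≠ 0 → ds p ≤ 4 * l := by
    intro p hp
    have h1 : cn th0 r (an p) ≠ 0 := by
      intro h
      apply hp
      rw [hq, h, zero_mul]
    have h2 : ∀ j ∈ (Finset.univ : Finset (Fin d)), an p j ^ 2 ≤ (th0 + r) ^ 2 := by
      intro j _
      have h3 := cn_supp hr0 _ h1 j
      rw [abs_lt] at h3
      have h4 := (an_lt p j).1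
      apply pow_le_pow_left₀ h4
      linarith only [h3.2]
    have h5 := (ds_le_sq p).trans (Finset.sum_le_sum h2)
    rw [Finset.sum_const, Finset.card_univ, Fintype.card_fin, nsmul_eq_mul] at h5
    linarith only [h5, hr3, hl]
  have hq0 : ∀ p, ¬ ds p ≤ 4 * l → q p = 0 := by
    intro p hp
    by_contra hcon
    exact hp (hsupp p hcon)
  -- the density of states
  obtain ⟨D₀, hD₀⟩ : ∃ D₀, D₀ = l ^ (((d : ℝ) - 2) / 2) := ⟨_, rfl⟩
  have hD₀0 : 0 < D₀ := by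
    rw [hD₀]
    exact Real.rpow_pos_of_pos hl _
  have hη0 : 0 < T'⁻¹ := inv_pos.2 hT'0
  have hηl : T'⁻¹ ≤ l := by
    rw [← one_div, div_le_iff₀ hT'0, mul_comm]
    exact hT'l
  have h4l := rpow4 hd hl
  rw [← hD₀] at h4l
  have hDk : pm (fun p : Tor d M => if ds p ≤ 4 * l then ker T'⁻¹ (ds p - l) else 0) ≤
      CD * 4 ^ d * D₀ := by
    have h1 := hdst M (4 * l) l T'⁻¹ hη0 (by linarith only [hηl, hl]) (by linarith only [hl2]) hMD
    refine le_trans h1 ?_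
    calc CD * (4 * l) ^ (((d : ℝ) - 2) / 2) ≤ CD * (4 ^ d * D₀) :=
          mul_le_mul_of_nonneg_left h4l hCD0.le
      _ = CD * 4 ^ d * D₀ := (mul_assoc _ _ _).symm
  have hDm : pm (fun p : Tor d M => if ds p ≤ 4 * l then (mt l T'⁻¹ p)⁻¹ else 0) ≤
      CS * 4 ^ d * D₀ * (1 + Real.log T') := by
    have h1 := (hsms M l T'⁻¹ (4 * l) hη0 hηl le_rfl (by linarith only [hl2]) hMS).2
    refine le_trans h1 ?_
    rw [one_div, inv_inv]
    have h2 : 0 ≤ 1 + Real.log T' := by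
      have := Real.log_nonneg hT'1
      linarith only [this]
    apply mul_le_mul_of_nonneg_right _ h2
    calc CS * (4 * l) ^ (((d : ℝ) - 2) / 2) ≤ CS * (4 ^ d * D₀) :=
          mul_le_mul_of_nonneg_left h4l hCS0.le
      _ = CS * 4 ^ d * D₀ := (mul_assoc _ _ _).symm
  have hlog : 0 ≤ 1 + Real.log T' := by
    have := Real.log_nonneg hT'1
    linarith only [this]
  have hK0 : 0 ≤ 18 * (d : ℝ) * T' ^ 2 / c₁ :=
    div_nonneg (mul_nonneg (mul_nonneg (by norm_num) hd0.le) (sq_nonneg T')) hc₁.le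
  have hK90 : 0 ≤ 90 * (d : ℝ) ^ 2 * T' ^ 2 * (Rb + 1) / c₁ :=
    div_nonneg (mul_nonneg (mul_nonneg (mul_nonneg (by norm_num) (sq_nonneg _)) (sq_nonneg T'))
      (by linarith only [hRb])) hc₁.le
  have hrth : r ≤ th0 := by linarith only [hr0, hr2]
  have hth2 : th0 + r ≤ 2 * Real.pi := by linarith only [hth, hpi3]
  have hK1 := K1_le (D := d) hd0.le hT'1 hc₁ hc₁1 hr0 hrT
  have hpm : ∀ F : Tor d M → ℝ, ((pm F : ℝ) : ℂ) = (∑ p, (F p : ℂ)) / (M : ℂ) ^ d :=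
    fun F => pm_ofReal F
  refine ⟨T', q, hTT', ?_, ?_⟩
  · refine hT'C.trans (mul_le_mul_of_nonneg_right ?_ hT0.le)
    rw [hA]
    linarith only [hCD4, hCS4, hWc, hC0]
  rw [← hD₀]
  constructor
  · exact hsupp
  · intro p
    refine ((hqw p).trans (abs_w2_le hT'0 _)).trans ?_
    apply mul_le_mul_of_nonneg_right _ hT'0.le
    rw [hA]
    linarith only [hCD4, hCS4, hWc, hC0]
  · -- the main term
    have h1 := main_le hr0 E hT'0 (m := c * D₀) (d := d) (th0 := th0) (r := r) (by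
      rw [hE, hD₀]
      refine le_trans (le_of_eq ?_) hmain
      ring)
    have h2 := riemann (M := M) (G := fun x : Fin d → ℝ => G1 th0 r E T' x)
      (K := 18 * (d : ℝ) * T' ^ 2 / c₁) hK0 (fun x y =>
        (G1_lip hr0 E hT'0 x y).trans (mul_le_mul_of_nonneg_right hK1 (norm_nonneg _)))
      (fun x ⟨j, hj⟩ => G_zero hr0 hrth hth2 E T' x
        ⟨j, hj.imp (fun h => h.le) (fun h => h)⟩)
    have h3 := err_main (d := d) hT'1 hc₁ hc hM (D₀ := D₀) (by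
      rw [hD₀]
      exact D0_ge hd hl (by linarith only [hl2]) hT'0 hT'l) hM1
    have h4 : ((pm q : ℝ) : ℂ) = (∑ p : Fin d → ZMod M, G1 th0 r E T' (an p)) / (M : ℂ) ^ d := by
      rw [hpm]
      exact congrArg (fun x => x / (M : ℂ) ^ d) (Finset.sum_congr rfl fun p _ => hqG p)
    have h5 : ‖((2 * Real.pi) ^ d)⁻¹ • ∫ x : Fin d → ℝ, G1 th0 r E T' x‖ =
        W⁻¹ * ‖∫ x : Fin d → ℝ, G1 th0 r E T' x‖ := by
      rw [norm_smul, ← hW, Real.norm_eq_abs, abs_of_pos (inv_pos.2 hW0)]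
    have h6 : W⁻¹ * (c * D₀) ≤ W⁻¹ * ‖∫ x : Fin d → ℝ, G1 th0 r E T' x‖ :=
      mul_le_mul_of_nonneg_left h1 (inv_pos.2 hW0).le
    rw [← h4] at h2
    have h7 : ‖((2 * Real.pi) ^ d)⁻¹ • ∫ x : Fin d → ℝ, G1 th0 r E T' x‖ ≤
        ‖((pm q : ℝ) : ℂ)‖ + ‖((pm q : ℝ) : ℂ) -
          ((2 * Real.pi) ^ d)⁻¹ • ∫ x : Fin d → ℝ, G1 th0 r E T' x‖ := by
      have e1 : ((2 * Real.pi) ^ d)⁻¹ • ∫ x : Fin d → ℝ, G1 th0 r E T' x =
          ((pm q : ℝ) : ℂ) - (((pm q : ℝ) : ℂ) -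
          ((2 * Real.pi) ^ d)⁻¹ • ∫ x : Fin d → ℝ, G1 th0 r E T' x) := by ring
      conv_lhs => rw [e1]
      exact norm_sub_le _ _
    rw [h5] at h7
    rw [← hW] at h3
    have h8 : ‖((pm q : ℝ) : ℂ)‖ = |pm q| := by
      rw [Complex.norm_real, Real.norm_eq_abs]
    rw [h8] at h7
    have h9 : W⁻¹ * (c * D₀) / 2 ≤ |pm q| := by linarith only [h7, h6, h2, h3]
    refine le_trans ?_ h9
    have h10 : 2 * W / c ≤ A := by
      rw [hA]
      linarith only [hCD4, hCS4, hC0]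
    have h11 : W⁻¹ * (c * D₀) / 2 = D₀ / (2 * W / c) := by
      field_simp
    rw [h11]
    exact div_le_div_of_nonneg_left hD₀0.le hWc h10
  · -- L1
    have h1 := pm_supp (F := fun p : Tor d M => |q p|) (G := fun p => ker T'⁻¹ (ds p - l))
      (c := 8) (κ := 4 * l) (fun p _ => (hqw p).trans (w2_le_ker hT'0 _)) (fun p hp => by
        show |q p| ≤ 0
        rw [hq0 p hp, abs_zero])
    refine h1.trans ?_
    calc 8 * pm (fun p : Tor d M => if ds p ≤ 4 * l then ker T'⁻¹ (ds p - l) else 0) ≤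
        8 * (CD * 4 ^ d * D₀) := mul_le_mul_of_nonneg_left hDk (by norm_num)
      _ = 8 * (CD * 4 ^ d) * D₀ := by ring
      _ ≤ A * D₀ := by
          apply mul_le_mul_of_nonneg_right _ hD₀0.le
          rw [hA]
          linarith only [hCD4, hCS4, hC0, hWc]
  · -- L2
    have h1 := pm_supp (F := fun p : Tor d M => q p ^ 2) (G := fun p => ker T'⁻¹ (ds p - l))
      (c := 32 * T') (κ := 4 * l) (fun p _ => (hqw2 p).trans (w2_sq_le hT'0 _)) (fun p hp => by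
        show q p ^ 2 ≤ 0
        rw [hq0 p hp]
        norm_num)
    refine h1.trans ?_
    calc 32 * T' * pm (fun p : Tor d M => if ds p ≤ 4 * l then ker T'⁻¹ (ds p - l) else 0) ≤
        32 * T' * (CD * 4 ^ d * D₀) := mul_le_mul_of_nonneg_left hDk
          (mul_nonneg (by norm_num) hT'0.le)
      _ = 32 * (CD * 4 ^ d) * (T' * D₀) := by ring
      _ ≤ A * (T' * D₀) := by
          apply mul_le_mul_of_nonneg_right _ (mul_nonneg hT'0.le hD₀0.le)
          rw [hA]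
          linarith only [hCD4, hCS4, hC0, hWc]
      _ = A * T' * D₀ := by ring
  · -- X2
    have h1 := pm_supp (F := fun p : Tor d M => q p ^ 2 * |ds p - l|)
      (G := fun p => ker T'⁻¹ (ds p - l)) (c := 32) (κ := 4 * l)
      (fun p _ => (mul_le_mul_of_nonneg_right (hqw2 p) (abs_nonneg _)).trans
        (w2_sq_abs_le hT'0 _)) (fun p hp => by
        show q p ^ 2 * |ds p - l| ≤ 0
        rw [hq0 p hp]
        norm_num)
    refine h1.trans ?_
    calc 32 * pm (fun p : Tor d M => if ds p ≤ 4 * l then ker T'⁻¹ (ds p - l) else 0) ≤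
        32 * (CD * 4 ^ d * D₀) := mul_le_mul_of_nonneg_left hDk (by norm_num)
      _ = 32 * (CD * 4 ^ d) * D₀ := by ring
      _ ≤ A * D₀ := by
          apply mul_le_mul_of_nonneg_right _ hD₀0.le
          rw [hA]
          linarith only [hCD4, hCS4, hC0, hWc]
  · -- X1
    have h1 := pm_supp (F := fun p : Tor d M => |q p * (ds p - l)|)
      (G := fun p => (mt l T'⁻¹ p)⁻¹) (c := 8 / T') (κ := 4 * l)
      (fun p _ => by
        show |q p * (ds p - l)| ≤ 8 / T' * (mt l T'⁻¹ p)⁻¹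
        refine le_trans ?_ (w2_mul_le hT'0 (ds p - l))
        rw [abs_mul, abs_mul]
        exact mul_le_mul_of_nonneg_right (hqw p) (abs_nonneg _)) (fun p hp => by
        show |q p * (ds p - l)| ≤ 0
        rw [hq0 p hp]
        norm_num)
    refine h1.trans ?_
    calc 8 / T' * pm (fun p : Tor d M => if ds p ≤ 4 * l then (mt l T'⁻¹ p)⁻¹ else 0) ≤
        8 / T' * (CS * 4 ^ d * D₀ * (1 + Real.log T')) :=
          mul_le_mul_of_nonneg_left hDm (div_nonneg (by norm_num) hT'0.le)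
      _ = 8 * (CS * 4 ^ d) * (D₀ * (1 + Real.log T') / T') := by ring
      _ ≤ A * (D₀ * (1 + Real.log T') / T') := by
          apply mul_le_mul_of_nonneg_right _
            (div_nonneg (mul_nonneg hD₀0.le hlog) hT'0.le)
          rw [hA]
          linarith only [hCD4, hCS4, hC0, hWc]
      _ = A * D₀ * (1 + Real.log T') / T' := by ring
  · -- the kernel
    intro y hy
    obtain ⟨n, hn⟩ : ∃ n : Fin d → ℤ, n = fun j => (y j).valMinAbs := ⟨_, rfl⟩
    have hnR : ∀ j, |(n j : ℝ)| ≤ Rb := by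
      intro j
      have h1 : (y j).valMinAbs.natAbs ≤ Rb := by
        refine le_trans ?_ hy
        unfold tds
        have h2 := Finset.le_sup (f := fun i : Fin d => (y i - (0 : Tor d M) i).valMinAbs.natAbs)
          (Finset.mem_univ j)
        have h3 : (y j - (0 : Tor d M) j) = y j := by
          show y j - 0 = y j
          exact sub_zero _
        rw [h3] at h2
        exact h2
      rw [hn]
      show |(((y j).valMinAbs : ℤ) : ℝ)| ≤ Rb
      rw [← Int.cast_abs, Int.abs_eq_natAbs]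
      exact_mod_cast h1
    have h1 := kernel_le (d := d) hr0 (by linarith only [hth, hth0]) hr2
      (by linarith only [hth, hth0, hpi3]) E hT'0
      (K := C / (Real.sqrt T' ^ (d - 1) * Real.sqrt l)) (fun m => by
        rw [hE]
        refine (hker T' hCT'l m).trans (le_of_eq ?_)
        ring) n
    have hK2 := K2_le (D := d) (R := Rb) (by linarith only [hd']) hT'1 hc₁ hc₁1 hRb hK1
    have h2 := riemann (M := M) (G := fun x : Fin d → ℝ => G2 th0 r E T' n x)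
      (K := 90 * (d : ℝ) ^ 2 * T' ^ 2 * (Rb + 1) / c₁) hK90 (fun x y =>
        (G2_lip hr0 hEd hT'0 hRb hnR x y).trans
          (mul_le_mul_of_nonneg_right hK2 (norm_nonneg _)))
      (fun x ⟨j, hj⟩ => by
        show G2 th0 r E T' n x = 0
        unfold G2
        rw [G_zero hr0 hrth hth2 E T' x
          ⟨j, hj.imp (fun h => h.le) (fun h => h)⟩, zero_mul, zero_mul])
    have h3 := err_kernel (d := d) (R := Rb) hT'1 hl (by linarith only [hl2]) hc₁ hM hM2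
    have h4 : (∑ p, ((q p * (ds p - l) : ℝ) : ℂ) * ec p y) / (M : ℂ) ^ d =
        -((∑ p : Fin d → ZMod M, G2 th0 r E T' n (an p)) / (M : ℂ) ^ d) := by
      rw [← neg_div, ← Finset.sum_neg_distrib]
      refine congrArg (fun x => x / (M : ℂ) ^ d) (Finset.sum_congr rfl ?_)
      intro p _
      unfold G2
      rw [hXE, ec_an, ← hn, Complex.ofReal_mul, hqG]
      push_cast
      ring
    rw [h4, norm_neg]
    have h7 : ‖(∑ p : Fin d → ZMod M, G2 th0 r E T' n (an p)) / (M : ℂ) ^ d‖ ≤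
        ‖((2 * Real.pi) ^ d)⁻¹ • ∫ x : Fin d → ℝ, G2 th0 r E T' n x‖ +
        ‖(∑ p : Fin d → ZMod M, G2 th0 r E T' n (an p)) / (M : ℂ) ^ d -
          ((2 * Real.pi) ^ d)⁻¹ • ∫ x : Fin d → ℝ, G2 th0 r E T' n x‖ := by
      obtain ⟨u, hu⟩ : ∃ u, u = (∑ p : Fin d → ZMod M, G2 th0 r E T' n (an p)) / (M : ℂ) ^ d :=
        ⟨_, rfl⟩
      obtain ⟨v, hv⟩ : ∃ v, v = ((2 * Real.pi) ^ d)⁻¹ • ∫ x : Fin d → ℝ, G2 th0 r E T' n x :=
        ⟨_, rfl⟩
      rw [← hu, ← hv]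
      have e1 : u = v + (u - v) := by ring
      conv_lhs => rw [e1]
      exact norm_add_le _ _
    have hsT : 0 < Real.sqrt T' := Real.sqrt_pos.2 hT'0
    have h8 : 2 / T' * (C / (Real.sqrt T' ^ (d - 1) * Real.sqrt l)) =
        2 * C / (Real.sqrt T' ^ (d + 1) * Real.sqrt l) := by
      rw [← sqrt_pow (le_trans (by norm_num) hd) hT'0]
      field_simp
    rw [h8] at h1
    have h9 : 2 * C / (Real.sqrt T' ^ (d + 1) * Real.sqrt l) +
        1 / (Real.sqrt T' ^ (d + 1) * Real.sqrt l) =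
        (2 * C + 1) / (Real.sqrt T' ^ (d + 1) * Real.sqrt l) := by
      rw [add_div]
    have h10 : (2 * C + 1) / (Real.sqrt T' ^ (d + 1) * Real.sqrt l) ≤
        A / (Real.sqrt T' ^ (d + 1) * Real.sqrt l) := by
      apply div_le_div_of_nonneg_right _ (mul_nonneg (pow_nonneg hsT.le _) hsl.le)
      rw [hA]
      linarith only [hCD4, hCS4, hWc, hC0]
    linarith only [h7, h1, h2, h3, h9, h10]

end Pool.Agent.LE.IR.H32
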