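import Pool.Agent.Helper76_LSP.Fou
import Pool.Agent.LE.StmtsJ

/-!
# Squad LIR, row TSE, part 1: the multiplier and Riemann sums
-/

set_option autoImplicit false
set_option linter.unusedSectionVars false

open MeasureTheory Set Real Function

open scoped ENNReal ComplexConjugate

noncomputable section

namespace Pool.Agent.LE.IR.H32

open Pool.Agent.Anderson Pool.Agent.LE.CL Pool.Agent.LE.CL.H76

/-! ### the continuous version of `wh` -/

/-- `sin x / x` -/
def sc (x : ℝ) : ℝ := ∫ s in (0 : ℝ)..1, Real.cos (x * s)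

theorem sc_eq {x : ℝ} (hx : x ≠ 0) : sc x = Real.sin x / x := by
  unfold sc
  rw [intervalIntegral.integral_comp_mul_left (fun y => Real.cos y) hx, integral_cos]
  simp [div_eq_inv_mul]

theorem sc_zero : sc 0 = 1 := by
  unfold sc
  simp

theorem abs_sc_le (x : ℝ) : |sc x| ≤ 1 := by
  have h := intervalIntegral.norm_integral_le_of_norm_le_const (a := (0 : ℝ)) (b := 1) (C := 1)
    (f := fun s => Real.cos (x * s)) (fun s _ => by
      rw [Real.norm_eq_abs]
      exact Real.abs_cos_le_one _)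
  unfold sc
  rw [Real.norm_eq_abs] at h
  simpa using h

theorem abs_cos_sub_cos (a b : ℝ) : |Real.cos a - Real.cos b| ≤ |a - b| := by
  rw [Real.cos_sub_cos, abs_mul, abs_mul]
  have h1 : |Real.sin ((a + b) / 2)| ≤ 1 := Real.abs_sin_le_one _
  have h2 : |Real.sin ((a - b) / 2)| ≤ |(a - b) / 2| := Real.abs_sin_le_abs
  have h3 : |(a - b) / 2| = |a - b| / 2 := by
    rw [abs_div, abs_of_pos (by norm_num : (0 : ℝ) < 2)]
  have h5 : |(-2 : ℝ)| = 2 := by norm_num
  rw [h5]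
  rw [h3] at h2
  have h6 : |Real.sin ((a + b) / 2)| * |Real.sin ((a - b) / 2)| ≤ 1 * (|a - b| / 2) :=
    mul_le_mul h1 h2 (abs_nonneg _) (by norm_num)
  nlinarith

theorem sc_lip (x y : ℝ) : |sc x - sc y| ≤ |x - y| := by
  have hi : ∀ z : ℝ, IntervalIntegrable (fun s => Real.cos (z * s)) volume 0 1 := by
    intro z
    exact (Real.continuous_cos.comp (continuous_const.mul continuous_id)).intervalIntegrable 0 1
  unfold sc
  rw [← intervalIntegral.integral_sub (hi x) (hi y)]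
  have h := intervalIntegral.norm_integral_le_of_norm_le_const (a := (0 : ℝ)) (b := 1)
    (C := |x - y|) (f := fun s => Real.cos (x * s) - Real.cos (y * s)) (fun s hs => by
      rw [Real.norm_eq_abs]
      refine (abs_cos_sub_cos _ _).trans ?_
      rw [Set.uIoc_of_le zero_le_one] at hs
      rw [← sub_mul, abs_mul, abs_of_pos hs.1]
      have := abs_nonneg (x - y)
      nlinarith [hs.2])
  rw [Real.norm_eq_abs] at h
  simpa using h

/-- `wh`, continuous at `0` -/
def w2 (T x : ℝ) : ℝ := 3 * T * (sc (3 / 2 * (T * x)) * sc (1 / 2 * (T * x)))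

theorem w2_eq {T : ℝ} (hT : 0 < T) {x : ℝ} (hx : x ≠ 0) : w2 T x = wh T x := by
  unfold w2 wh
  have h1 : T * x ≠ 0 := mul_ne_zero hT.ne' hx
  rw [sc_eq (by positivity), sc_eq (by positivity)]
  have h2 : Real.cos (T * x) - Real.cos (2 * T * x) =
      2 * Real.sin (3 / 2 * (T * x)) * Real.sin (1 / 2 * (T * x)) := by
    rw [Real.cos_sub_cos]
    rw [show (T * x + 2 * T * x) / 2 = 3 / 2 * (T * x) by ring,
      show (T * x - 2 * T * x) / 2 = -(1 / 2 * (T * x)) by ring, Real.sin_neg]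
    ring
  rw [h2]
  field_simp

theorem w2_zero {T : ℝ} : w2 T 0 = 3 * T := by
  unfold w2
  rw [mul_zero, mul_zero, mul_zero, sc_zero]
  ring

theorem abs_w2_le {T : ℝ} (hT : 0 < T) (x : ℝ) : |w2 T x| ≤ 3 * T := by
  unfold w2
  rw [abs_mul, abs_mul (sc _), abs_of_pos (by positivity : 0 < 3 * T)]
  have h1 := mul_le_mul (abs_sc_le (3 / 2 * (T * x))) (abs_sc_le (1 / 2 * (T * x)))
    (abs_nonneg _) (by norm_num)
  calc 3 * T * _ ≤ 3 * T * (1 * 1) := mul_le_mul_of_nonneg_left h1 (by positivity)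
    _ = 3 * T := by ring

theorem w2_lip {T : ℝ} (hT : 0 < T) (x y : ℝ) : |w2 T x - w2 T y| ≤ 6 * T ^ 2 * |x - y| := by
  unfold w2
  rw [← mul_sub, abs_mul, abs_of_pos (by positivity : 0 < 3 * T)]
  obtain ⟨a, ha⟩ : ∃ a, a = sc (3 / 2 * (T * x)) := ⟨_, rfl⟩
  obtain ⟨b, hb⟩ : ∃ b, b = sc (1 / 2 * (T * x)) := ⟨_, rfl⟩
  obtain ⟨a', ha'⟩ : ∃ a, a = sc (3 / 2 * (T * y)) := ⟨_, rfl⟩
  obtain ⟨b', hb'⟩ : ∃ b, b = sc (1 / 2 * (T * y)) := ⟨_, rfl⟩
  have h1 : |a - a'| ≤ 3 / 2 * T * |x - y| := by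
    rw [ha, ha']
    refine (sc_lip _ _).trans (le_of_eq ?_)
    rw [show 3 / 2 * (T * x) - 3 / 2 * (T * y) = 3 / 2 * T * (x - y) by ring, abs_mul,
      abs_of_pos (by positivity : 0 < 3 / 2 * T)]
  have h2 : |b - b'| ≤ 1 / 2 * T * |x - y| := by
    rw [hb, hb']
    refine (sc_lip _ _).trans (le_of_eq ?_)
    rw [show 1 / 2 * (T * x) - 1 / 2 * (T * y) = 1 / 2 * T * (x - y) by ring, abs_mul,
      abs_of_pos (by positivity : 0 < 1 / 2 * T)]
  have h3 : |a| ≤ 1 := by
    rw [ha]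
    exact abs_sc_le _
  have h4 : |b'| ≤ 1 := by
    rw [hb']
    exact abs_sc_le _
  rw [← ha, ← hb, ← ha', ← hb']
  have h5 : |a * b - a' * b'| ≤ |a| * |b - b'| + |a - a'| * |b'| := by
    rw [← abs_mul, ← abs_mul]
    refine le_trans (le_of_eq ?_) (abs_add_le _ _)
    congr 1
    ring
  have h6 : |a| * |b - b'| ≤ 1 * (1 / 2 * T * |x - y|) :=
    mul_le_mul h3 h2 (abs_nonneg _) (by norm_num)
  have h7 : |a - a'| * |b'| ≤ (3 / 2 * T * |x - y|) * 1 :=
    mul_le_mul h1 h4 (abs_nonneg _) (mul_nonneg (by positivity) (abs_nonneg _))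
  calc 3 * T * |a * b - a' * b'| ≤ 3 * T * (2 * T * |x - y|) := by
        apply mul_le_mul_of_nonneg_left _ (by positivity)
        linarith
    _ = 6 * T ^ 2 * |x - y| := by ring

theorem wh_zero (T : ℝ) : wh T 0 = 0 := by
  unfold wh
  simp

theorem wh_le_w2 {T : ℝ} (hT : 0 < T) (x : ℝ) : wh T x ≤ w2 T x := by
  rcases eq_or_ne x 0 with rfl | hx
  · rw [wh_zero, w2_zero]
    positivity
  · rw [w2_eq hT hx]

theorem w2_mul {T : ℝ} (hT : 0 < T) (x : ℝ) : w2 T x * x = wh T x * x := by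
  rcases eq_or_ne x 0 with rfl | hx
  · rw [mul_zero, mul_zero]
  · rw [w2_eq hT hx]

theorem w2_neg (T x : ℝ) : w2 T (-x) = w2 T x := by
  have h : ∀ y, sc (-y) = sc y := by
    intro y
    unfold sc
    congr 1
    funext s
    rw [neg_mul, Real.cos_neg]
  unfold w2
  rw [show 3 / 2 * (T * -x) = -(3 / 2 * (T * x)) by ring,
    show 1 / 2 * (T * -x) = -(1 / 2 * (T * x)) by ring, h, h]

theorem w2_sq_le {T : ℝ} (hT : 0 < T) (x : ℝ) : w2 T x ^ 2 ≤ 32 * T * ker T⁻¹ x := by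
  rcases eq_or_ne x 0 with rfl | hx
  · rw [w2_zero, ker_inv hT]
    have h1 : T / (T ^ 2 * 0 ^ 2 + 1) = T := by norm_num
    rw [h1]
    nlinarith
  · rw [w2_eq hT hx]
    exact wh_sq_le hT x

theorem w2_sq_abs_le {T : ℝ} (hT : 0 < T) (x : ℝ) : w2 T x ^ 2 * |x| ≤ 32 * ker T⁻¹ x := by
  rcases eq_or_ne x 0 with rfl | hx
  · rw [abs_zero, mul_zero, ker_inv hT]
    positivity
  · rw [w2_eq hT hx]
    exact wh_sq_abs_le hT x

theorem w2_le_ker {T : ℝ} (hT : 0 < T) (x : ℝ) : |w2 T x| ≤ 8 * ker T⁻¹ x := by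
  rw [ker_inv hT, ← mul_div_assoc, le_div_iff₀ (by positivity)]
  have h0 := abs_nonneg (w2 T x)
  rcases le_or_gt ((T * x) ^ 2) 1 with h | h
  · have h1 := abs_w2_le hT x
    have h3 : T ^ 2 * x ^ 2 + 1 ≤ 2 := by nlinarith
    calc |w2 T x| * (T ^ 2 * x ^ 2 + 1) ≤ (3 * T) * 2 :=
          mul_le_mul h1 h3 (by positivity) (by positivity)
      _ ≤ 8 * T := by nlinarith
  · have hx : x ≠ 0 := by
      rintro rfl
      norm_num at h
    have h1 := abs_wh_le2 hT x
    rw [w2_eq hT hx] at *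
    have hx2 : 0 < x ^ 2 := by positivity
    have h3 : T ^ 2 * x ^ 2 + 1 ≤ 2 * (T ^ 2 * x ^ 2) := by nlinarith
    calc |wh T x| * (T ^ 2 * x ^ 2 + 1) ≤ (4 / (T * x ^ 2)) * (2 * (T ^ 2 * x ^ 2)) :=
          mul_le_mul h1 h3 (by positivity) (by positivity)
      _ = 8 * T := by
          field_simp
          ring

theorem w2_mul_le {T : ℝ} (hT : 0 < T) (x : ℝ) :
    |w2 T x * x| ≤ 8 / T * (Real.sqrt (x ^ 2 + T⁻¹ ^ 2))⁻¹ := by
  have hp : 0 < x ^ 2 + T⁻¹ ^ 2 := by positivity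
  have hs : 0 < Real.sqrt (x ^ 2 + T⁻¹ ^ 2) := Real.sqrt_pos.2 hp
  rw [← div_eq_mul_inv, le_div_iff₀ hs]
  rw [abs_mul]
  have h0 := abs_nonneg (w2 T x)
  have hx0 := abs_nonneg x
  have hxx : |x| ^ 2 = x ^ 2 := sq_abs x
  rcases le_or_gt (T * |x|) 1 with h | h
  · have h1 := abs_w2_le hT x
    have h3 : |x| ≤ T⁻¹ := by
      rw [← one_div, le_div_iff₀ hT, mul_comm]
      exact h
    have h4 : Real.sqrt (x ^ 2 + T⁻¹ ^ 2) ≤ 2 * T⁻¹ := by
      apply Real.sqrt_le_iff.2
      constructor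
      · positivity
      · have h5 : |x| ^ 2 ≤ T⁻¹ ^ 2 := pow_le_pow_left₀ hx0 h3 2
        rw [hxx] at h5
        have h6 : 0 < T⁻¹ ^ 2 := by positivity
        nlinarith
    have h7 : |w2 T x| * |x| ≤ 3 := by
      calc |w2 T x| * |x| ≤ 3 * T * |x| := mul_le_mul_of_nonneg_right h1 hx0
        _ = 3 * (T * |x|) := by ring
        _ ≤ 3 := by linarith
    calc |w2 T x| * |x| * Real.sqrt (x ^ 2 + T⁻¹ ^ 2) ≤ 3 * (2 * T⁻¹) :=
          mul_le_mul h7 h4 hs.le (by norm_num)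
      _ ≤ 8 / T := by
          rw [div_eq_mul_inv]
          have : 0 < T⁻¹ := inv_pos.2 hT
          linarith
  · have hx : x ≠ 0 := by
      rintro rfl
      norm_num at h
    have hx' : 0 < |x| := abs_pos.2 hx
    have h1 := abs_wh_le2 hT x
    rw [w2_eq hT hx] at *
    have h3 : T⁻¹ ≤ |x| := by
      rw [← one_div, div_le_iff₀ hT, mul_comm]
      exact h.le
    have h4 : Real.sqrt (x ^ 2 + T⁻¹ ^ 2) ≤ 2 * |x| := by
      apply Real.sqrt_le_iff.2
      constructor
      · positivity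
      · have h5 : T⁻¹ ^ 2 ≤ |x| ^ 2 := pow_le_pow_left₀ (by positivity) h3 2
        have h6 : (2 * |x|) ^ 2 = 4 * x ^ 2 := by rw [mul_pow, hxx]; ring
        rw [h6]
        rw [hxx] at h5
        nlinarith [sq_nonneg x]
    calc |wh T x| * |x| * Real.sqrt (x ^ 2 + T⁻¹ ^ 2) ≤ 4 / (T * x ^ 2) * |x| * (2 * |x|) :=
          mul_le_mul (mul_le_mul_of_nonneg_right h1 hx0) h4 hs.le (by positivity)
      _ = 8 / T := by
          rw [← hxx]
          field_simp
          ring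

/-! ### Riemann sums -/

variable {d M : ℕ} [NeZero M]

/-- the angles of a momentum -/
def an (p : Fin d → ZMod M) (j : Fin d) : ℝ := 2 * π * ((p j).val : ℝ) / M

/-- the cell of a momentum -/
def cell (p : Fin d → ZMod M) : Set (Fin d → ℝ) :=
  Set.pi Set.univ fun j => Ico (2 * π * ((p j).val : ℝ) / M) (2 * π * (((p j).val : ℝ) + 1) / M)

theorem hMpos : (0 : ℝ) < M := by
  have := Nat.pos_of_ne_zero (NeZero.ne M)
  exact_mod_cast this

theorem vol_cell (p : Fin d → ZMod M) :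
    (volume : Measure (Fin d → ℝ)).real (cell p) = (2 * π / M) ^ d := by
  have hM : (0 : ℝ) < M := hMpos
  have hpi := Real.pi_pos
  have h1 : ∀ j, 2 * π * (((p j).val : ℝ) + 1) / M - 2 * π * ((p j).val : ℝ) / M = 2 * π / M := by
    intro j
    field_simp
    ring
  unfold cell
  rw [measureReal_def, Real.volume_pi_Ico_toReal]
  · simp only [h1]
    rw [Finset.prod_const, Finset.card_univ, Fintype.card_fin]
  · intro j
    show 2 * π * ((p j).val : ℝ) / M ≤ 2 * π * (((p j).val : ℝ) + 1) / M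
    have := h1 j
    have h2 : 0 < 2 * π / M := by positivity
    linarith

theorem measurable_cell (p : Fin d → ZMod M) : MeasurableSet (cell p) :=
  MeasurableSet.univ_pi fun _ => measurableSet_Ico

theorem cell_disjoint : Pairwise (Function.onFun Disjoint (cell : (Fin d → ZMod M) → Set (Fin d → ℝ))) := by
  intro p q hpq
  have hM : (0 : ℝ) < M := hMpos
  have hpi := Real.pi_pos
  show Disjoint (cell p) (cell q)
  rw [Set.disjoint_left]
  intro x hx hy
  apply hpq
  funext j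
  have h1 := hx j (Set.mem_univ j)
  have h2 := hy j (Set.mem_univ j)
  have h3 : 2 * π * ((p j).val : ℝ) / M < 2 * π * (((q j).val : ℝ) + 1) / M :=
    lt_of_le_of_lt h1.1 h2.2
  have h4 : 2 * π * ((q j).val : ℝ) / M < 2 * π * (((p j).val : ℝ) + 1) / M :=
    lt_of_le_of_lt h2.1 h1.2
  rw [div_lt_div_iff_of_pos_right hM, mul_lt_mul_iff_right₀ (by positivity)] at h3 h4
  have h5 : (p j).val < (q j).val + 1 := by exact_mod_cast h3
  have h6 : (q j).val < (p j).val + 1 := by exact_mod_cast h4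
  exact ZMod.val_injective M (by omega)

theorem mem_cell_dist (p : Fin d → ZMod M) {x : Fin d → ℝ} (hx : x ∈ cell p) :
    ‖x - an p‖ ≤ 2 * π / M := by
  have hM : (0 : ℝ) < M := hMpos
  have hpi := Real.pi_pos
  rw [pi_norm_le_iff_of_nonneg (by positivity)]
  intro j
  have h1 := hx j (Set.mem_univ j)
  rw [Pi.sub_apply, Real.norm_eq_abs, abs_le]
  unfold an
  have h2 : 2 * π * (((p j).val : ℝ) + 1) / M = 2 * π * ((p j).val : ℝ) / M + 2 * π / M := by
    field_simp
  have h3 := h1.1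
  have h4 := h1.2
  rw [h2] at h4
  have h5 : 0 < 2 * π / M := by positivity
  constructor <;> linarith

theorem mem_iUnion_cell {x : Fin d → ℝ} (hx : ∀ j, 0 ≤ x j ∧ x j < 2 * π) :
    ∃ p : Fin d → ZMod M, x ∈ cell p := by
  have hM : (0 : ℝ) < M := hMpos
  have hpi := Real.pi_pos
  refine ⟨fun j => ((⌊x j * M / (2 * π)⌋₊ : ℕ) : ZMod M), ?_⟩
  intro j _
  obtain ⟨h1, h2⟩ := hx j
  have h3 : 0 ≤ x j * M / (2 * π) := by positivity
  have h4 : x j * M / (2 * π) < M := by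
    rw [div_lt_iff₀ (by positivity), mul_comm]
    exact mul_lt_mul_of_pos_left h2 hM
  have h5 : ⌊x j * M / (2 * π)⌋₊ < M := by
    rw [Nat.floor_lt h3]
    exact h4
  have h6 : (((⌊x j * M / (2 * π)⌋₊ : ℕ) : ZMod M)).val = ⌊x j * M / (2 * π)⌋₊ := by
    rw [ZMod.val_natCast, Nat.mod_eq_of_lt h5]
  show x j ∈ Ico _ _
  rw [h6]
  have h7 := Nat.floor_le h3
  have h8 := Nat.lt_floor_add_one (x j * M / (2 * π))
  constructor
  · rw [le_div_iff₀ (by positivity)] at h7
    rw [div_le_iff₀ hM]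
    linarith
  · rw [div_lt_iff₀ (by positivity)] at h8
    rw [lt_div_iff₀ hM]
    linarith

/-- Riemann sums of a Lipschitz function -/
theorem riemann {G : (Fin d → ℝ) → ℂ} {K : ℝ} (hK0 : 0 ≤ K)
    (hK : ∀ x y, ‖G x - G y‖ ≤ K * ‖x - y‖)
    (h0 : ∀ x : Fin d → ℝ, (∃ j, x j < 0 ∨ 2 * π ≤ x j) → G x = 0) :
    ‖(∑ p : Fin d → ZMod M, G (an p)) / (M : ℂ) ^ d - ((2 * π) ^ d)⁻¹ • ∫ x, G x‖ ≤
      K * (2 * π / M) := by
  have hM : (0 : ℝ) < M := hMpos
  have hpi := Real.pi_pos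
  have hcont : Continuous G := by
    have h1 : LipschitzWith ⟨K, hK0⟩ G := by
      apply LipschitzWith.of_dist_le_mul
      intro x y
      rw [dist_eq_norm, dist_eq_norm]
      exact hK x y
    exact h1.continuous
  have hint : ∀ p : Fin d → ZMod M, IntegrableOn G (cell p) := by
    intro p
    have h1 : cell p ⊆ Set.Icc (fun j => 2 * π * ((p j).val : ℝ) / M)
        (fun j => 2 * π * (((p j).val : ℝ) + 1) / M) := by
      intro x hx
      exact ⟨fun j => (hx j (Set.mem_univ j)).1, fun j => (hx j (Set.mem_univ j)).2.le⟩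
    exact (hcont.continuousOn.integrableOn_compact isCompact_Icc).mono_set h1
  have hU : ∫ x, G x = ∑ p : Fin d → ZMod M, ∫ x in cell p, G x := by
    rw [← integral_iUnion_fintype (fun p => measurable_cell p) cell_disjoint hint]
    symm
    apply setIntegral_eq_integral_of_forall_compl_eq_zero
    intro x hx
    apply h0
    by_contra hc
    push Not at hc
    exact hx (Set.mem_iUnion.2 (mem_iUnion_cell hc))
  have hcell : ∀ p : Fin d → ZMod M,
      ‖((2 * π / M) ^ d : ℝ) • G (an p) - ∫ x in cell p, G x‖ ≤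
        K * (2 * π / M) * (2 * π / M) ^ d := by
    intro p
    have h1 : ∫ x in cell p, (G (an p) : ℂ) = ((2 * π / M) ^ d : ℝ) • G (an p) := by
      rw [setIntegral_const, vol_cell]
    have h2 : volume (cell p) < ⊤ := by
      have h3 : cell p ⊆ Set.Icc (fun j => 2 * π * ((p j).val : ℝ) / M)
        (fun j => 2 * π * (((p j).val : ℝ) + 1) / M) := by
        intro x hx
        exact ⟨fun j => (hx j (Set.mem_univ j)).1, fun j => (hx j (Set.mem_univ j)).2.le⟩
      exact lt_of_le_of_lt (measure_mono h3) (isCompact_Icc.measure_lt_top)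
    have hci : IntegrableOn (fun _ : Fin d → ℝ => G (an p)) (cell p) := by
      exact integrableOn_const (hs := h2.ne)
    rw [← h1, ← integral_sub hci (hint p)]
    have h4 := norm_setIntegral_le_of_norm_le_const (f := fun x => G (an p) - G x) (s := cell p)
      (μ := volume) (C := K * (2 * π / M)) h2 (fun x hx => by
        refine (hK _ _).trans ?_
        apply mul_le_mul_of_nonneg_left _ hK0
        rw [norm_sub_rev]
        exact mem_cell_dist p hx)
    rw [vol_cell] at h4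
    exact h4
  have hexp : (∑ p : Fin d → ZMod M, G (an p)) / (M : ℂ) ^ d -
      ((2 * π) ^ d)⁻¹ • ∫ x, G x = ((2 * π) ^ d)⁻¹ •
        ∑ p : Fin d → ZMod M, (((2 * π / M) ^ d : ℝ) • G (an p) - ∫ x in cell p, G x) := by
    rw [hU, Finset.sum_sub_distrib, smul_sub, ← Finset.smul_sum, smul_smul]
    congr 1
    have h1 : ((2 * π) ^ d)⁻¹ * (2 * π / M) ^ d = ((M : ℝ) ^ d)⁻¹ := by
      rw [div_pow]
      field_simp
    rw [h1, div_eq_inv_mul, Complex.real_smul]
    push_cast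
    rfl
  rw [hexp, norm_smul, norm_inv, norm_pow, Real.norm_eq_abs,
    abs_of_pos (by positivity : 0 < 2 * π)]
  have hsum : ‖∑ p : Fin d → ZMod M, (((2 * π / M) ^ d : ℝ) • G (an p) -
      ∫ x in cell p, G x)‖ ≤ (M : ℝ) ^ d * (K * (2 * π / M) * (2 * π / M) ^ d) := by
    refine (norm_sum_le _ _).trans ?_
    refine (Finset.sum_le_sum fun p _ => hcell p).trans ?_
    rw [Finset.sum_const, Finset.card_univ, Fintype.card_fun, ZMod.card, Fintype.card_fin,
      nsmul_eq_mul]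
    push_cast
    exact le_refl _
  calc ((2 * π) ^ d)⁻¹ * _ ≤ ((2 * π) ^ d)⁻¹ * ((M : ℝ) ^ d * (K * (2 * π / M) *
        (2 * π / M) ^ d)) := mul_le_mul_of_nonneg_left hsum (by positivity)
    _ = K * (2 * π / M) := by
        rw [div_pow]
        field_simp

end Pool.Agent.LE.IR.H32
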