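import Pool.Agent.Helper32_LIR.TseA
import Pool.Agent.Helper54_LIR.FTB

/-!
# Squad LIR, row TSE, part 2: the Lipschitz constants, the characters
-/

set_option autoImplicit false
set_option linter.unusedSectionVars false

open MeasureTheory Set Real Function

open scoped ENNReal ComplexConjugate

noncomputable section

namespace Pool.Agent.LE.IR.H32

open Pool.Agent.Anderson Pool.Agent.LE.CL Pool.Agent.LE.CL.H76 Pool.Agent.BED Pool.Agent.LE.IR

/-! ### the normalized cut-off -/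

/-- the normalized cut-off -/
def bb (th0 r x : ℝ) : ℝ := max (1 - ((x - th0) / r) ^ 2) 0

theorem bb_nonneg (th0 r x : ℝ) : 0 ≤ bb th0 r x := le_max_right _ _

theorem bb_le (th0 r x : ℝ) : bb th0 r x ≤ 1 := by
  unfold bb
  apply max_le
  · have := sq_nonneg ((x - th0) / r)
    linarith
  · norm_num

theorem aa_eq_bb {th0 r : ℝ} (hr : 0 < r) (x : ℝ) : aa th0 r x = r ^ 2 * bb th0 r x := by
  unfold aa bb
  rw [mul_max_of_nonneg _ _ (by positivity : 0 ≤ r ^ 2), mul_zero]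
  congr 1
  field_simp

theorem max_lip (u v : ℝ) : |max (1 - u ^ 2) 0 - max (1 - v ^ 2) 0| ≤ 2 * |u - v| := by
  have h0 := abs_nonneg (u - v)
  rcases le_or_gt (u ^ 2) 1 with hu | hu <;> rcases le_or_gt (v ^ 2) 1 with hv | hv
  · rw [max_eq_left (by linarith), max_eq_left (by linarith)]
    have h1 : 1 - u ^ 2 - (1 - v ^ 2) = -((u + v) * (u - v)) := by ring
    rw [h1, abs_neg, abs_mul]
    apply mul_le_mul_of_nonneg_right _ h0
    have h2 : |u| ≤ 1 := abs_le_one_iff_mul_self_le_one.2 (by nlinarith)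
    have h3 : |v| ≤ 1 := abs_le_one_iff_mul_self_le_one.2 (by nlinarith)
    have := abs_add_le u v
    linarith
  · rw [max_eq_left (by linarith), max_eq_right (by linarith), sub_zero,
      abs_of_nonneg (by linarith)]
    have h2 : |u| ≤ 1 := abs_le_one_iff_mul_self_le_one.2 (by nlinarith)
    have h3 : 1 < |v| := by
      rw [← sq_abs] at hv
      by_contra hc
      push Not at hc
      have := pow_le_one₀ (n := 2) (abs_nonneg v) hc
      linarith
    have h4 : |v| - |u| ≤ |u - v| := by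
      have := abs_sub_abs_le_abs_sub v u
      rw [abs_sub_comm] at this
      exact this
    have h5 : 1 - u ^ 2 = (1 - |u|) * (1 + |u|) := by
      rw [← sq_abs u]
      ring
    rw [h5]
    have h6 := abs_nonneg u
    nlinarith
  · rw [max_eq_right (by linarith), max_eq_left (by linarith), zero_sub, abs_neg,
      abs_of_nonneg (by linarith)]
    have h2 : |v| ≤ 1 := abs_le_one_iff_mul_self_le_one.2 (by nlinarith)
    have h3 : 1 < |u| := by
      rw [← sq_abs] at hu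
      by_contra hc
      push Not at hc
      have := pow_le_one₀ (n := 2) (abs_nonneg u) hc
      linarith
    have h4 : |u| - |v| ≤ |u - v| := abs_sub_abs_le_abs_sub u v
    have h5 : 1 - v ^ 2 = (1 - |v|) * (1 + |v|) := by
      rw [← sq_abs v]
      ring
    rw [h5]
    have h6 := abs_nonneg v
    nlinarith
  · rw [max_eq_right (by linarith), max_eq_right (by linarith), sub_zero, abs_zero]
    positivity

theorem bb_lip {th0 r : ℝ} (hr : 0 < r) (x y : ℝ) :
    |bb th0 r x - bb th0 r y| ≤ 2 / r * |x - y| := by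
  unfold bb
  refine (max_lip _ _).trans (le_of_eq ?_)
  have h1 : (x - th0) / r - (y - th0) / r = (x - y) / r := by
    field_simp
    ring
  rw [h1, abs_div, abs_of_pos hr]
  ring

theorem prod_lip {d : ℕ} (f g : Fin d → ℝ) (hf : ∀ j, |f j| ≤ 1) (hg : ∀ j, |g j| ≤ 1)
    (s : Finset (Fin d)) : |∏ j ∈ s, f j - ∏ j ∈ s, g j| ≤ ∑ j ∈ s, |f j - g j| := by
  classical
  induction s using Finset.induction_on with
  | empty => simp
  | insert a s ha ih =>
    rw [Finset.prod_insert ha, Finset.prod_insert ha, Finset.sum_insert ha]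
    have h1 : f a * ∏ j ∈ s, f j - g a * ∏ j ∈ s, g j =
        (f a - g a) * ∏ j ∈ s, f j + g a * (∏ j ∈ s, f j - ∏ j ∈ s, g j) := by ring
    rw [h1]
    refine (abs_add_le _ _).trans (add_le_add ?_ ?_)
    · rw [abs_mul, Finset.abs_prod]
      have h2 : ∏ j ∈ s, |f j| ≤ 1 := Finset.prod_le_one (fun j _ => abs_nonneg _) fun j _ => hf j
      calc |f a - g a| * ∏ j ∈ s, |f j| ≤ |f a - g a| * 1 :=
            mul_le_mul_of_nonneg_left h2 (abs_nonneg _)
        _ = |f a - g a| := mul_one _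
    · rw [abs_mul]
      calc |g a| * |∏ j ∈ s, f j - ∏ j ∈ s, g j| ≤ 1 * ∑ j ∈ s, |f j - g j| :=
            mul_le_mul (hg a) ih (abs_nonneg _) (by norm_num)
        _ = _ := one_mul _

variable {d : ℕ}

/-- the normalized product of the cut-offs -/
def cn (th0 r : ℝ) (x : Fin d → ℝ) : ℝ := ∏ j, bb th0 r (x j)

theorem cn_nonneg (th0 r : ℝ) (x : Fin d → ℝ) : 0 ≤ cn th0 r x :=
  Finset.prod_nonneg fun _ _ => bb_nonneg _ _ _

theorem cn_le (th0 r : ℝ) (x : Fin d → ℝ) : cn th0 r x ≤ 1 :=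
  Finset.prod_le_one (fun _ _ => bb_nonneg _ _ _) fun _ _ => bb_le _ _ _

theorem prod_aa {th0 r : ℝ} (hr : 0 < r) (x : Fin d → ℝ) :
    ∏ j, aa th0 r (x j) = r ^ (2 * d) * cn th0 r x := by
  unfold cn
  rw [Finset.prod_congr rfl fun j _ => aa_eq_bb hr (x j), Finset.prod_mul_distrib,
    Finset.prod_const, Finset.card_univ, Fintype.card_fin, ← pow_mul]

theorem coord_le (x y : Fin d → ℝ) (j : Fin d) : |x j - y j| ≤ ‖x - y‖ := by
  have := norm_le_pi_norm (x - y) j
  rwa [Pi.sub_apply, Real.norm_eq_abs] at this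

theorem cn_lip {th0 r : ℝ} (hr : 0 < r) (x y : Fin d → ℝ) :
    |cn th0 r x - cn th0 r y| ≤ 2 * d / r * ‖x - y‖ := by
  unfold cn
  have h0 : ∀ z : ℝ, |bb th0 r z| ≤ 1 := by
    intro z
    rw [abs_of_nonneg (bb_nonneg _ _ _)]
    exact bb_le _ _ _
  refine (prod_lip _ _ (fun j => h0 _) (fun j => h0 _) _).trans ?_
  have h1 : ∀ j ∈ (Finset.univ : Finset (Fin d)), |bb th0 r (x j) - bb th0 r (y j)| ≤
      2 / r * ‖x - y‖ := by
    intro j _
    refine (bb_lip hr _ _).trans ?_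
    exact mul_le_mul_of_nonneg_left (coord_le x y j) (by positivity)
  refine (Finset.sum_le_sum h1).trans (le_of_eq ?_)
  rw [Finset.sum_const, Finset.card_univ, Fintype.card_fin, nsmul_eq_mul]
  ring

/-- the argument of the multiplier -/
def XX (E : ℝ) (x : Fin d → ℝ) : ℝ := ∑ j, 2 * Real.cos (x j) - E

theorem XX_lip (E : ℝ) (x y : Fin d → ℝ) : |XX E x - XX E y| ≤ 2 * d * ‖x - y‖ := by
  unfold XX
  have h1 : ∑ j, 2 * Real.cos (x j) - E - (∑ j, 2 * Real.cos (y j) - E) =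
      ∑ j, (2 * Real.cos (x j) - 2 * Real.cos (y j)) := by
    rw [Finset.sum_sub_distrib]
    ring
  rw [h1]
  refine (Finset.abs_sum_le_sum_abs _ _).trans ?_
  have h2 : ∀ j ∈ (Finset.univ : Finset (Fin d)),
      |2 * Real.cos (x j) - 2 * Real.cos (y j)| ≤ 2 * ‖x - y‖ := by
    intro j _
    rw [← mul_sub, abs_mul, abs_of_pos (by norm_num : (0 : ℝ) < 2)]
    apply mul_le_mul_of_nonneg_left _ (by norm_num)
    exact (abs_cos_sub_cos _ _).trans (coord_le x y j)
  refine (Finset.sum_le_sum h2).trans (le_of_eq ?_)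
  rw [Finset.sum_const, Finset.card_univ, Fintype.card_fin, nsmul_eq_mul]
  ring

theorem XX_abs {E : ℝ} (hE : |E| ≤ 2 * d) (x : Fin d → ℝ) : |XX E x| ≤ 4 * d := by
  unfold XX
  have h1 : |∑ j, 2 * Real.cos (x j)| ≤ 2 * d := by
    refine (Finset.abs_sum_le_sum_abs _ _).trans ?_
    have h2 : ∀ j ∈ (Finset.univ : Finset (Fin d)), |2 * Real.cos (x j)| ≤ 2 := by
      intro j _
      rw [abs_mul, abs_of_pos (by norm_num : (0 : ℝ) < 2)]
      have := Real.abs_cos_le_one (x j)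
      linarith
    refine (Finset.sum_le_sum h2).trans (le_of_eq ?_)
    rw [Finset.sum_const, Finset.card_univ, Fintype.card_fin, nsmul_eq_mul]
    ring
  have h3 : |∑ j, 2 * Real.cos (x j) - E| ≤ |∑ j, 2 * Real.cos (x j)| + |E| := abs_sub _ _
  linarith

/-- the character -/
def ph (n : Fin d → ℤ) (x : Fin d → ℝ) : ℂ := Complex.exp (Complex.I * ((∑ j, n j * x j : ℝ) : ℂ))

theorem norm_exp_I (a : ℝ) : ‖Complex.exp (Complex.I * (a : ℂ))‖ = 1 := by
  rw [mul_comm]
  exact Complex.norm_exp_ofReal_mul_I a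

theorem ph_norm (n : Fin d → ℤ) (x : Fin d → ℝ) : ‖ph n x‖ = 1 := norm_exp_I _

theorem ph_lip {n : Fin d → ℤ} {R : ℝ} (hn : ∀ j, |(n j : ℝ)| ≤ R) (x y : Fin d → ℝ) :
    ‖ph n x - ph n y‖ ≤ d * R * ‖x - y‖ := by
  unfold ph
  obtain ⟨a, ha⟩ : ∃ a : ℝ, a = ∑ j, n j * x j := ⟨_, rfl⟩
  obtain ⟨b, hb⟩ : ∃ b : ℝ, b = ∑ j, n j * y j := ⟨_, rfl⟩
  rw [← ha, ← hb]
  have h1 : Complex.exp (Complex.I * (a : ℂ)) - Complex.exp (Complex.I * (b : ℂ)) =
      Complex.exp (Complex.I * (b : ℂ)) *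
        (Complex.exp (Complex.I * ((a - b : ℝ) : ℂ)) - 1) := by
    rw [mul_sub, mul_one, ← Complex.exp_add]
    congr 2
    push_cast
    ring
  rw [h1, norm_mul, norm_exp_I, one_mul]
  refine Real.norm_exp_I_mul_ofReal_sub_one_le.trans ?_
  rw [Real.norm_eq_abs, ha, hb, ← Finset.sum_sub_distrib]
  refine (Finset.abs_sum_le_sum_abs _ _).trans ?_
  have h2 : ∀ j ∈ (Finset.univ : Finset (Fin d)),
      |(n j : ℝ) * x j - n j * y j| ≤ R * ‖x - y‖ := by
    intro j _
    rw [← mul_sub, abs_mul]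
    exact mul_le_mul (hn j) (coord_le x y j) (abs_nonneg _) ((abs_nonneg _).trans (hn j))
  refine (Finset.sum_le_sum h2).trans (le_of_eq ?_)
  rw [Finset.sum_const, Finset.card_univ, Fintype.card_fin, nsmul_eq_mul]
  ring

theorem lip_mul {f g : (Fin d → ℝ) → ℂ} {A B K L : ℝ} (hA : 0 ≤ A) (hK0 : 0 ≤ K)
    (hf : ∀ x, ‖f x‖ ≤ A) (hg : ∀ x, ‖g x‖ ≤ B) (hK : ∀ x y, ‖f x - f y‖ ≤ K * ‖x - y‖)
    (hL : ∀ x y, ‖g x - g y‖ ≤ L * ‖x - y‖) (x y : Fin d → ℝ) :
    ‖f x * g x - f y * g y‖ ≤ (A * L + K * B) * ‖x - y‖ := by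
  have h1 : f x * g x - f y * g y = f x * (g x - g y) + (f x - f y) * g y := by ring
  rw [h1]
  refine (norm_add_le _ _).trans ?_
  rw [norm_mul, norm_mul, add_mul]
  apply add_le_add
  · rw [mul_assoc]
    exact mul_le_mul (hf x) (hL x y) (norm_nonneg _) hA
  · calc ‖f x - f y‖ * ‖g y‖ ≤ K * ‖x - y‖ * B :=
          mul_le_mul (hK x y) (hg y) (norm_nonneg _) (mul_nonneg hK0 (norm_nonneg _))
      _ = K * B * ‖x - y‖ := by ring

/-- the main function -/
def G1 (th0 r E T : ℝ) (x : Fin d → ℝ) : ℂ := (cn th0 r x : ℂ) * (w2 T (XX E x) : ℂ)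

/-- the kernel function -/
def G2 (th0 r E T : ℝ) (n : Fin d → ℤ) (x : Fin d → ℝ) : ℂ :=
  G1 th0 r E T x * (XX E x : ℂ) * ph n x

theorem norm_ofReal_sub (a b : ℝ) : ‖(a : ℂ) - (b : ℂ)‖ = |a - b| := by
  rw [← Complex.ofReal_sub, Complex.norm_real, Real.norm_eq_abs]

theorem G1_norm (th0 r E : ℝ) {T : ℝ} (hT : 0 < T) (x : Fin d → ℝ) :
    ‖G1 th0 r E T x‖ ≤ 3 * T := by
  unfold G1
  rw [norm_mul, Complex.norm_real, Complex.norm_real, Real.norm_eq_abs, Real.norm_eq_abs,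
    abs_of_nonneg (cn_nonneg _ _ _)]
  calc cn th0 r x * |w2 T (XX E x)| ≤ 1 * (3 * T) :=
        mul_le_mul (cn_le _ _ _) (abs_w2_le hT _) (abs_nonneg _) (by norm_num)
    _ = 3 * T := one_mul _

theorem G1_lip {th0 r : ℝ} (hr : 0 < r) (E : ℝ) {T : ℝ} (hT : 0 < T) (x y : Fin d → ℝ) :
    ‖G1 th0 r E T x - G1 th0 r E T y‖ ≤
      (1 * (6 * T ^ 2 * (2 * d)) + 2 * d / r * (3 * T)) * ‖x - y‖ := by
  unfold G1
  apply lip_mul (f := fun x => (cn th0 r x : ℂ)) (g := fun x => (w2 T (XX E x) : ℂ))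
    (by norm_num) (by positivity)
  · intro z
    rw [Complex.norm_real, Real.norm_eq_abs, abs_of_nonneg (cn_nonneg _ _ _)]
    exact cn_le _ _ _
  · intro z
    rw [Complex.norm_real, Real.norm_eq_abs]
    exact abs_w2_le hT _
  · intro z w
    rw [norm_ofReal_sub]
    exact cn_lip hr z w
  · intro z w
    rw [norm_ofReal_sub]
    refine (w2_lip hT _ _).trans ?_
    rw [mul_assoc (6 * T ^ 2)]
    exact mul_le_mul_of_nonneg_left (XX_lip E z w) (by positivity)

theorem G2_lip {th0 r : ℝ} (hr : 0 < r) {E : ℝ} (hE : |E| ≤ 2 * d) {T : ℝ} (hT : 0 < T)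
    {n : Fin d → ℤ} {R : ℝ} (hR : 0 ≤ R) (hn : ∀ j, |(n j : ℝ)| ≤ R) (x y : Fin d → ℝ) :
    ‖G2 th0 r E T n x - G2 th0 r E T n y‖ ≤
      (3 * T * (4 * d) * (d * R) + (3 * T * (2 * d) +
        (1 * (6 * T ^ 2 * (2 * d)) + 2 * d / r * (3 * T)) * (4 * d)) * 1) * ‖x - y‖ := by
  unfold G2
  have hX : ∀ z : Fin d → ℝ, ‖(XX E z : ℂ)‖ ≤ 4 * d := by
    intro z
    rw [Complex.norm_real, Real.norm_eq_abs]
    exact XX_abs hE z
  apply lip_mul (f := fun x => G1 th0 r E T x * (XX E x : ℂ)) (g := fun x => ph n x)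
    (by positivity) (by positivity)
  · intro z
    rw [norm_mul]
    exact mul_le_mul (G1_norm th0 r E hT z) (hX z) (norm_nonneg _) (by positivity)
  · intro z
    exact (ph_norm n z).le
  · apply lip_mul (by positivity) (by positivity)
    · exact fun z => G1_norm th0 r E hT z
    · exact hX
    · exact fun z w => G1_lip hr E hT z w
    · intro z w
      rw [norm_ofReal_sub]
      exact XX_lip E z w
  · exact fun z w => ph_lip hn z w

theorem bb_zero {th0 r x : ℝ} (hr : 0 < r) (h : r ≤ |x - th0|) : bb th0 r x = 0 := by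
  have h1 := aa_zero hr.le h
  rw [aa_eq_bb hr] at h1
  rcases mul_eq_zero.1 h1 with h2 | h2
  · exact absurd h2 (by positivity)
  · exact h2

theorem cn_zero {th0 r : ℝ} (hr : 0 < r) (x : Fin d → ℝ) (h : ∃ j, r ≤ |x j - th0|) :
    cn th0 r x = 0 := by
  obtain ⟨j, hj⟩ := h
  exact Finset.prod_eq_zero (Finset.mem_univ j) (bb_zero hr hj)

theorem cn_supp {th0 r : ℝ} (hr : 0 < r) (x : Fin d → ℝ) (h : cn th0 r x ≠ 0) (j : Fin d) :
    |x j - th0| < r := by
  by_contra hc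
  push Not at hc
  exact h (cn_zero hr x ⟨j, hc⟩)

/-! ### the characters and the symbol in angles -/

variable {M : ℕ} [NeZero M]

theorem add_char_val (a : ZMod M) (m : ℤ) :
    (ZMod.stdAddChar (a * (m : ZMod M)) : ℂ) =
      Complex.exp (Complex.I * ((m * (2 * π * (a.val : ℝ) / M) : ℝ) : ℂ)) := by
  have h1 : a * (m : ZMod M) = (((a.val : ℤ) * m : ℤ) : ZMod M) := by
    push_cast
    rw [ZMod.natCast_zmod_val]
  rw [h1, ZMod.stdAddChar_coe]
  congr 1
  push_cast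
  ring

theorem ec_an (p y : Tor d M) : ec p y = ph (fun j => (y j).valMinAbs) (an p) := by
  unfold ec ph an
  rw [Complex.ofReal_sum, Finset.mul_sum, Complex.exp_sum]
  apply Finset.prod_congr rfl
  intro i _
  have h1 : p i * y i = p i * (((y i).valMinAbs : ℤ) : ZMod M) := by
    rw [ZMod.coe_valMinAbs]
  rw [h1, add_char_val]

theorem cos_val (a : ZMod M) : Real.cos (2 * Real.pi * (a.valMinAbs : ℝ) / M) =
    Real.cos (2 * π * (a.val : ℝ) / M) := by
  have hM : (M : ℝ) ≠ 0 := (hMpos (M := M)).ne'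
  have h1 : ((a.valMinAbs : ℤ) : ZMod M) = (((a.val : ℕ) : ℤ) : ZMod M) := by
    rw [ZMod.coe_valMinAbs]
    push_cast
    rw [ZMod.natCast_zmod_val]
  rw [ZMod.intCast_eq_intCast_iff_dvd_sub] at h1
  obtain ⟨k, hk⟩ := h1
  have h2 : ((a.val : ℕ) : ℝ) = a.valMinAbs + M * k := by
    have h3 : (((a.val : ℕ) : ℤ) : ℝ) = ((a.valMinAbs + M * k : ℤ) : ℝ) := by
      congr 1
      linarith
    push_cast at h3
    exact h3
  rw [h2]
  have h4 : 2 * π * (a.valMinAbs + M * k : ℝ) / M =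
      2 * Real.pi * (a.valMinAbs : ℝ) / M + k * (2 * π) := by
    field_simp
  rw [h4, Real.cos_add_int_mul_two_pi]

theorem ds_an (p : Tor d M) : ds p = 2 * d - ∑ j, 2 * Real.cos (an p j) := by
  unfold ds an
  rw [Finset.sum_congr rfl fun i _ => by rw [cos_val (p i)]]
  simp only [mul_sub, mul_one]
  rw [Finset.sum_sub_distrib, Finset.sum_const, Finset.card_univ, Fintype.card_fin, nsmul_eq_mul]
  ring

theorem XX_an (l : ℝ) (p : Tor d M) : XX (2 * d - l) (an p) = -(ds p - l) := by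
  rw [ds_an]
  unfold XX
  ring

theorem an_lt (p : Tor d M) (j : Fin d) : 0 ≤ an p j ∧ an p j < 2 * π := by
  have hM := hMpos (M := M)
  have hpi := Real.pi_pos
  unfold an
  constructor
  · positivity
  · rw [div_lt_iff₀ hM]
    apply mul_lt_mul_of_pos_left _ (by positivity)
    exact_mod_cast ZMod.val_lt (p j)

theorem ds_le_sq (p : Tor d M) : ds p ≤ ∑ j, an p j ^ 2 := by
  rw [ds_an]
  have h1 : (2 * d : ℝ) - ∑ j, 2 * Real.cos (an p j) = ∑ j, (2 - 2 * Real.cos (an p j)) := by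
    rw [Finset.sum_sub_distrib, Finset.sum_const, Finset.card_univ, Fintype.card_fin,
      nsmul_eq_mul]
    ring
  rw [h1]
  apply Finset.sum_le_sum
  intro j _
  have := Real.one_sub_sq_div_two_le_cos (x := an p j)
  linarith

end Pool.Agent.LE.IR.H32
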