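import Pool.Agent.Helper32_LIR.TseB
import Pool.Agent.Helper76_LSP.TSA

/-!
# Squad LIR, row TSE, part 3: the integrals
-/

set_option autoImplicit false
set_option linter.unusedSectionVars false

open MeasureTheory ProbabilityTheory Function Filter

open scoped ENNReal BigOperators Topology NNReal ComplexOrder

noncomputable section

namespace Pool.Agent.LE.IR.H32

open Pool.Agent.Anderson hiding box mem_box card_box
open Pool.Agent.Loc Pool.Agent.Mob Pool.Agent.Helper54.Bal
  Pool.Agent.Helper96.EXP Pool.Agent.BED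
open Pool.Agent.LE.MN Pool.Agent.LE.CL Pool.Agent.LE.CL.H76

variable {d : ℕ}

theorem integrable_bb {th0 r : ℝ} (hr : 0 < r) : Integrable (bb th0 r) := by
  have hc : Continuous (bb th0 r) := by
    unfold bb
    fun_prop
  apply hc.integrable_of_hasCompactSupport
  apply HasCompactSupport.intro (K := Set.Icc (th0 - r) (th0 + r)) isCompact_Icc
  intro x hx
  apply bb_zero hr
  rw [Set.mem_Icc, not_and_or, not_le, not_le] at hx
  rcases hx with hx | hx
  · rw [le_abs]
    right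
    linarith
  · rw [le_abs]
    left
    linarith

theorem integrable_cn {th0 r : ℝ} (hr : 0 < r) :
    Integrable (fun x : Fin d → ℝ => cn th0 r x) := by
  unfold cn
  exact Integrable.fintype_prod (f := fun _ : Fin d => bb th0 r) fun _ => integrable_bb hr

theorem continuous_cn {th0 r : ℝ} : Continuous (fun x : Fin d → ℝ => cn th0 r x) := by
  have hc : Continuous (bb th0 r) := by
    unfold bb
    fun_prop
  unfold cn
  apply continuous_finsetProd
  intro j _
  exact hc.comp (continuous_apply j)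

theorem continuous_XX (E : ℝ) : Continuous (fun x : Fin d → ℝ => XX E x) := by
  unfold XX
  fun_prop

theorem continuous_w2 (T : ℝ) (hT : 0 < T) : Continuous (w2 T) := by
  have h1 : LipschitzWith ⟨6 * T ^ 2, by positivity⟩ (w2 T) := by
    apply LipschitzWith.of_dist_le_mul
    intro x y
    rw [Real.dist_eq, Real.dist_eq]
    exact w2_lip hT x y
  exact h1.continuous

/-- a product of the cut-off and a bounded function -/
theorem integrable_cn_mul {th0 r : ℝ} (hr : 0 < r) {f : (Fin d → ℝ) → ℝ} {B : ℝ}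
    (hf : Measurable f) (hB : ∀ x, |f x| ≤ B) :
    Integrable (fun x : Fin d → ℝ => cn th0 r x * f x) := by
  apply Integrable.mono' ((integrable_cn (d := d) (th0 := th0) hr).mul_const B)
  · exact (continuous_cn.measurable.mul hf).aestronglyMeasurable
  · refine Filter.Eventually.of_forall fun x => ?_
    rw [Real.norm_eq_abs, abs_mul, abs_of_nonneg (cn_nonneg _ _ _)]
    exact mul_le_mul_of_nonneg_left (hB x) (cn_nonneg _ _ _)

/-- the main term -/
theorem main_le {th0 r : ℝ} (hr : 0 < r) (E : ℝ) {T m : ℝ} (hT : 0 < T)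
    (h : m * r ^ (2 * d) ≤ ∫ θ : Fin d → ℝ, (∏ j, aa th0 r (θ j)) *
      wh T (∑ j, 2 * Real.cos (θ j) - E)) :
    m ≤ ‖∫ θ : Fin d → ℝ, G1 th0 r E T θ‖ := by
  have hX : Measurable fun x : Fin d → ℝ => XX E x := (continuous_XX E).measurable
  have h1 : ∫ θ : Fin d → ℝ, (∏ j, aa th0 r (θ j)) * wh T (∑ j, 2 * Real.cos (θ j) - E) =
      r ^ (2 * d) * ∫ θ : Fin d → ℝ, cn th0 r θ * wh T (XX E θ) := by
    rw [← integral_const_mul]
    apply integral_congr_ae
    refine Filter.Eventually.of_forall fun θ => ?_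
    show (∏ j, aa th0 r (θ j)) * wh T (∑ j, 2 * Real.cos (θ j) - E) =
      r ^ (2 * d) * (cn th0 r θ * wh T (XX E θ))
    rw [prod_aa hr]
    unfold XX
    ring
  have h2 : ∫ θ : Fin d → ℝ, cn th0 r θ * wh T (XX E θ) ≤
      ∫ θ : Fin d → ℝ, cn th0 r θ * w2 T (XX E θ) := by
    apply integral_mono
    · exact integrable_cn_mul hr ((measurable_wh T).comp hX) fun x => abs_wh_le1 hT _
    · exact integrable_cn_mul hr ((continuous_w2 T hT).measurable.comp hX)
        fun x => abs_w2_le hT _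
    · intro θ
      exact mul_le_mul_of_nonneg_left (wh_le_w2 hT _) (cn_nonneg _ _ _)
  have h3 : ∫ θ : Fin d → ℝ, G1 th0 r E T θ =
      ((∫ θ : Fin d → ℝ, cn th0 r θ * w2 T (XX E θ) : ℝ) : ℂ) := by
    rw [← integral_complex_ofReal]
    apply integral_congr_ae
    refine Filter.Eventually.of_forall fun θ => ?_
    show G1 th0 r E T θ = ((cn th0 r θ * w2 T (XX E θ) : ℝ) : ℂ)
    unfold G1
    rw [Complex.ofReal_mul]
  have hrp : 0 < r ^ (2 * d) := by positivity
  rw [h1, mul_comm] at h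
  have h4 : m ≤ ∫ θ : Fin d → ℝ, cn th0 r θ * wh T (XX E θ) := le_of_mul_le_mul_left h hrp
  rw [h3, Complex.norm_real, Real.norm_eq_abs]
  exact (h4.trans h2).trans (le_abs_self _)

theorem G_zero {th0 r : ℝ} (hr : 0 < r) (h0 : r ≤ th0) (h1 : th0 + r ≤ 2 * Real.pi) (E T : ℝ)
    (x : Fin d → ℝ) (h : ∃ j, x j ≤ 0 ∨ 2 * Real.pi ≤ x j) : G1 th0 r E T x = 0 := by
  obtain ⟨j, hj⟩ := h
  unfold G1
  rw [cn_zero hr x ⟨j, ?_⟩, Complex.ofReal_zero, zero_mul]
  rcases hj with hj | hj
  · rw [le_abs]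
    right
    linarith
  · rw [le_abs]
    left
    linarith

/-- the kernel -/
theorem kernel_le {th0 r : ℝ} (hr : 0 < r) (hr1 : r ≤ 1 / 2) (h0 : 2 * r ≤ th0)
    (h1 : th0 ≤ Real.pi - 2 * r) (E : ℝ) {T K : ℝ} (hT : 0 < T)
    (hK : ∀ n : Fin d → ℤ, ‖∫ t in T..(2 * T), Complex.exp (Complex.I * ((t * E : ℝ) : ℂ)) *
          ∏ j, hh th0 r t (n j)‖ ≤ K * r ^ (2 * d)) (n : Fin d → ℤ) :
    ‖((2 * Real.pi) ^ d)⁻¹ • ∫ θ : Fin d → ℝ, G2 th0 r E T n θ‖ ≤ 2 / T * K := by
  have hpi := Real.pi_pos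
  have hrp : 0 < r ^ (2 * d) := by positivity
  have h0' : ∀ j : Fin d, 2 * r ≤ (fun _ : Fin d => th0) j ∧
      (fun _ : Fin d => th0) j ≤ Real.pi - 2 * r := fun _ => ⟨h0, h1⟩
  have hmain := coef_le (th0 := fun _ : Fin d => th0) hr hr1 h0' E hT hK n
  have hG : ∀ θ : UnitAddTorus (Fin d), G2 th0 r E T n (ang θ) = ((r ^ (2 * d) : ℝ) : ℂ)⁻¹ *
      (((H76.cut (fun _ : Fin d => th0) r (ang θ) * wh T (sy θ - E) * (sy θ - E) : ℝ) : ℂ) *
        ch n θ) := by
    intro θ
    unfold G2 G1 ph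
    rw [ch_eq, prod_exp]
    have e1 : XX E (ang θ) = sy θ - E := by
      rw [sy_eq]
      rfl
    have e2 : H76.cut (fun _ : Fin d => th0) r (ang θ) = r ^ (2 * d) * cn th0 r (ang θ) := by
      unfold H76.cut
      exact prod_aa hr _
    have e3 := w2_mul hT (sy θ - E)
    have hne : ((r ^ (2 * d) : ℝ) : ℂ) ≠ 0 := by exact_mod_cast hrp.ne'
    rw [e1, e2]
    have e4 : (cn th0 r (ang θ) : ℂ) * (w2 T (sy θ - E) : ℂ) * ((sy θ - E : ℝ) : ℂ) =
        ((cn th0 r (ang θ) * (wh T (sy θ - E) * (sy θ - E)) : ℝ) : ℂ) := by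
      rw [← e3]
      push_cast
      ring
    rw [e4]
    obtain ⟨z, hz⟩ : ∃ z : ℂ, z = Complex.exp (Complex.I * ((∑ j, n j * ang θ j : ℝ) : ℂ)) :=
      ⟨_, rfl⟩
    rw [← hz, show r ^ (2 * d) * cn th0 r (ang θ) * wh T (sy θ - E) * (sy θ - E) =
      r ^ (2 * d) * (cn th0 r (ang θ) * (wh T (sy θ - E) * (sy θ - E))) by ring,
      Complex.ofReal_mul (r ^ (2 * d)), mul_assoc ((r ^ (2 * d) : ℝ) : ℂ),
      inv_mul_cancel_left₀ hne]
  have hz : ∀ y : Fin d → ℝ, (∃ j, y j ≤ 0 ∨ 2 * Real.pi < y j) → G2 th0 r E T n y = 0 := by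
    rintro y ⟨j, hj⟩
    unfold G2
    rw [G_zero hr (by linarith) (by linarith) E T y ⟨j, ?_⟩, zero_mul, zero_mul]
    rcases hj with hj | hj
    · left
      exact hj
    · right
      exact hj.le
  have hcont : Continuous fun x : Fin d → ℝ => G2 th0 r E T n x := by
    unfold G2 G1 ph
    have e1 : Continuous fun x : Fin d → ℝ => (cn th0 r x : ℂ) :=
      Complex.continuous_ofReal.comp continuous_cn
    have e2 : Continuous fun x : Fin d → ℝ => (XX E x : ℂ) :=
      Complex.continuous_ofReal.comp (continuous_XX E)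
    have e3 : Continuous fun x : Fin d → ℝ => (w2 T (XX E x) : ℂ) :=
      Complex.continuous_ofReal.comp ((continuous_w2 T hT).comp (continuous_XX E))
    have e4 : Continuous fun x : Fin d → ℝ =>
        Complex.exp (Complex.I * ((∑ j, n j * x j : ℝ) : ℂ)) := by
      fun_prop
    exact ((e1.mul e3).mul e2).mul e4
  have hm : Measurable fun θ : UnitAddTorus (Fin d) => G2 th0 r E T n (ang θ) :=
    hcont.measurable.comp measurable_ang
  rw [← integral_ang (G2 th0 r E T n) hm.aestronglyMeasurable hz]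
  rw [integral_congr_ae (Filter.Eventually.of_forall hG), integral_const_mul, norm_mul, norm_inv,
    Complex.norm_real, Real.norm_eq_abs, abs_of_pos hrp]
  calc (r ^ (2 * d))⁻¹ * _ ≤ (r ^ (2 * d))⁻¹ * (2 / T * (K * r ^ (2 * d))) :=
        mul_le_mul_of_nonneg_left hmain (by positivity)
    _ = 2 / T * K := by
        field_simp

end Pool.Agent.LE.IR.H32
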